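import Pool.Agent.H95.DR.Targets

/-!
# DIHEDRAL, row ASU: sums over the lines and sums over all vectors of a window
-/

set_option autoImplicit false

open MeasureTheory Set Filter NumberField
open scoped Real nonZeroDivisors Matrix MatrixGroups

namespace Pool.Agent.H29.DF

open Pool.Agent.H31.CN Pool.Agent.H89.FM Pool.Agent.H61.FM Pool.Agent.H89.FC Pool.Agent.H95.FC
open Pool.Agent.H89.DF Pool.Agent.H95.DR

theorem pf_SUMr (hNCUr : T_NCUr) (hRHOr : T_RHOr) (hTYR : T_TYR) : T_SUMr := by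
  classical
  intro K _ _ σ σ' f κ ν ψ I α β Q b T W η hOB hVB hLT hR L h a ha
  have h1 : HasSum (fun u : ℤ × ℤ => ∑ V ∈ T, rtr σ σ' κ ν ψ b α β V *
      (if u ∈ L ∧ (f : ℤ) ∣ det V u ∧ Wd σ σ' α β η 0 u then
        tyr σ σ' κ ν (lv K α β u) * h |(val Q u : ℝ)| else 0))
      (∑ V ∈ T, rtr σ σ' κ ν ψ b α β V * a V) :=
    hasSum_sum fun V hV => (ha V hV).mul_left _
  obtain ⟨-, -, hR3⟩ := hRHOr K σ σ' f κ ν ψ I α β Q b hOB hVB hR
  have h3 : (fun u : ℤ × ℤ => ∑ V ∈ T, rtr σ σ' κ ν ψ b α β V *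
      (if u ∈ L ∧ (f : ℤ) ∣ det V u ∧ Wd σ σ' α β η 0 u then
        tyr σ σ' κ ν (lv K α β u) * h |(val Q u : ℝ)| else 0)) =
      fun u : ℤ × ℤ => if u ∈ L ∧ Wd σ σ' α β η 0 u then ψ (b u) * h |(val Q u : ℝ)| else 0 := by
    funext u
    by_cases hu : u ∈ L ∧ Wd σ σ' α β η 0 u
    · rw [if_pos hu]
      have hu0 : u ≠ 0 := hu.2.1
      have h4 : ∀ V ∈ T, rtr σ σ' κ ν ψ b α β V *
          (if u ∈ L ∧ (f : ℤ) ∣ det V u ∧ Wd σ σ' α β η 0 u then
            tyr σ σ' κ ν (lv K α β u) * h |(val Q u : ℝ)| else 0) =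
          (if (f : ℤ) ∣ det V u then rtr σ σ' κ ν ψ b α β V else 0) *
            (tyr σ σ' κ ν (lv K α β u) * h |(val Q u : ℝ)|) := by
        intro V _
        by_cases hd : (f : ℤ) ∣ det V u
        · rw [if_pos ⟨hu.1, hd, hu.2⟩, if_pos hd]
        · rw [if_neg (fun h => hd h.2.1), if_neg hd, mul_zero, zero_mul]
      rw [Finset.sum_congr rfl h4, ← Finset.sum_mul,
        hNCUr K σ σ' f κ ν ψ I α β Q b T W hOB hVB hLT hR u hu0]
      by_cases hU : Uv f Q u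
      · rw [if_pos hU]
        have hl : lv K α β u ≠ 0 := fun h0 => hu0 (hOB.inj u h0)
        have h6 : tyr σ σ' κ ν (lv K α β u) ≠ 0 := by
          have h := (hTYR K σ σ' κ ν).2.1 _ hl
          intro h0
          rw [h0, norm_zero] at h
          exact zero_ne_one h
        unfold rtr
        rw [mul_assoc, ← mul_assoc (tyr σ σ' κ ν (lv K α β u))⁻¹, inv_mul_cancel₀ h6, one_mul]
      · rw [if_neg hU, zero_mul, hR3 u hu0 hU, zero_mul]
    · rw [if_neg hu]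
      apply Finset.sum_eq_zero
      intro V _
      rw [if_neg (fun h => hu ⟨h.1, h.2.2⟩), mul_zero]
  rw [h3] at h1
  exact h1

end Pool.Agent.H29.DF
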