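import Pool.Agent.H95.DR.Targets
import Pool.Agent.H16.FM.TWS

/-!
# DIHEDRAL, row ATW: sums over the vectors of a product of ideals in a window
-/

set_option autoImplicit false

open MeasureTheory Set Filter NumberField
open scoped Real nonZeroDivisors Matrix MatrixGroups

namespace Pool.Agent.H29.DF

open Pool.Agent.H31.CN Pool.Agent.H89.FM Pool.Agent.H61.FM Pool.Agent.H89.FC Pool.Agent.H95.FC
open Pool.Agent.H89.DF Pool.Agent.H95.DR Pool.Agent.H16.FM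

theorem pf_TWSr (hWND : T_WND) (hUWN : T_UWN) : T_TWSr := by
  classical
  intro K _ _ D f σ σ' hRQ I P α β Q b η ψ hOB hVB hUN hψ g a h
  have hun : 0 < nq σ σ' η := (hUWN K D f σ σ' hRQ η hUN).2.1
  have hb1 := hVB.spn
  have hb2 : ∀ v, v ≠ 0 → ClassGroup.mk0 (b v) = (ClassGroup.mk0 I)⁻¹ ∧
      (nm (b v) : ℤ) = |val Q v| := fun v hv => ⟨hVB.cls v hv, hVB.nrm v hv⟩
  have hb3 := hVB.sur
  set A : Set (ℤ × ℤ) := {v | v ∈ lt K α β ((P : Ideal (𝓞 K)) * I) ∧ Wd σ σ' α β η 0 v} with hA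
  set B : Set (Ideal (𝓞 K))⁰ :=
    {J | ClassGroup.mk0 J = (ClassGroup.mk0 I * ClassGroup.mk0 P)⁻¹} with hB
  have hI0 : (I : Ideal (𝓞 K)) ≠ 0 := nonZeroDivisors.coe_ne_zero I
  have hP0 : (P : Ideal (𝓞 K)) ≠ 0 := nonZeroDivisors.coe_ne_zero P
  -- membership
  have hmem : ∀ v : ℤ × ℤ, v ≠ 0 → (v ∈ lt K α β ((P : Ideal (𝓞 K)) * I) ↔
      (P : Ideal (𝓞 K)) ∣ (b v : Ideal (𝓞 K))) := by
    intro v hv
    have h1 : v ∈ lt K α β ((P : Ideal (𝓞 K)) * I) ↔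
        (v.1 : 𝓞 K) * α + (v.2 : 𝓞 K) * β ∈ (P : Ideal (𝓞 K)) * I := Iff.rfl
    rw [h1, ← Ideal.dvd_span_singleton, hb1 v hv, mul_dvd_mul_iff_right hI0]
  have hex : ∀ v : ℤ × ℤ, ∃ J : (Ideal (𝓞 K))⁰, v ∈ A → b v = P * J := by
    intro v
    by_cases hv : v ∈ A
    · obtain ⟨J, hJ⟩ := (hmem v hv.2.1).mp hv.1
      have hJ0 : J ≠ 0 := by
        rintro rfl
        rw [mul_zero] at hJ
        exact nonZeroDivisors.coe_ne_zero (b v) hJ
      refine ⟨⟨J, mem_nonZeroDivisors_of_ne_zero hJ0⟩, fun _ => Subtype.ext hJ⟩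
    · exact ⟨1, fun h => absurd h hv⟩
  choose j hj using hex
  have hcl : ∀ J : (Ideal (𝓞 K))⁰, J ∈ B ↔ ClassGroup.mk0 (P * J) = (ClassGroup.mk0 I)⁻¹ := by
    intro J
    rw [hB, Set.mem_ofPred_eq, map_mul, mul_inv, ← eq_inv_mul_iff_mul_eq, mul_comm]
  have hjB : ∀ v ∈ A, j v ∈ B := by
    intro v hv
    rw [hcl, ← hj v hv]
    exact (hb2 v hv.2.1).1
  have hfib : ∀ J ∈ B, {v | v ∈ A ∧ j v = J}.ncard = nq σ σ' η := by
    intro J hJ
    obtain ⟨v, hv, hbv⟩ := hb3 (P * J) ((hcl J).mp hJ)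
    rw [← (hWND K D f σ σ' hRQ η hUN I α β Q b hOB hVB v 0 hv).2]
    congr 1
    ext v'
    constructor
    · rintro ⟨hv', hjv'⟩
      refine ⟨hv'.2, ?_⟩
      rw [hj v' hv', hjv', hbv]
    · rintro ⟨hv', hbv'⟩
      have h2 : b v' = P * J := hbv'.trans hbv
      have h3 : v' ∈ A := by
        refine ⟨(hmem v' hv'.1).mpr ?_, hv'⟩
        rw [h2]
        exact ⟨J, rfl⟩
      refine ⟨h3, ?_⟩
      have h4 := (hj v' h3).symm.trans h2
      have h5 : (P : Ideal (𝓞 K)) * (j v' : Ideal (𝓞 K)) = P * (J : Ideal (𝓞 K)) :=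
        congrArg Subtype.val h4
      exact Subtype.ext (mul_left_cancel₀ hP0 h5)
  have hnm : ∀ J J' : (Ideal (𝓞 K))⁰, nm (J * J') = nm J * nm J' := by
    intro J J'
    unfold nm
    rw [Submonoid.coe_mul, map_mul]
  have hnP : 0 < nm P := by
    unfold nm
    rw [Nat.pos_iff_ne_zero, Ne, Ideal.absNorm_eq_zero_iff]
    exact hP0
  have hgf : ∀ v ∈ A, (fun v : ℤ × ℤ => ψ (b v) * g (|(val Q v : ℝ)| / nm P)) v =
      (fun J : (Ideal (𝓞 K))⁰ => ψ P * ψ J * g (nm J)) (j v) := by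
    intro v hv
    change ψ (b v) * g (|(val Q v : ℝ)| / nm P) = ψ P * ψ (j v) * g (nm (j v))
    have h0 : ψ (b v) = ψ P * ψ (j v) := by
      rw [← hψ]
      exact congrArg ψ (congrArg Subtype.val (hj v hv))
    rw [h0]
    congr 2
    have h2 := (hb2 v hv.2.1).2
    rw [hj v hv, hnm] at h2
    have h3 : |(val Q v : ℝ)| = (nm P : ℝ) * nm (j v) := by
      have h4 : ((|val Q v| : ℤ) : ℝ) = (nm P : ℝ) * nm (j v) := by
        rw [← h2]
        push_cast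
        ring
      rw [← h4]
      push_cast
      rfl
    rw [h3, mul_comm, mul_div_assoc, div_self (Nat.cast_ne_zero.mpr hnP.ne'), mul_one]
  have hfin := hasSum_fib A B j (nq σ σ' η) hun hjB hfib
    (fun v => ψ (b v) * g (|(val Q v : ℝ)| / nm P))
    (fun J => ψ P * ψ J * g (nm J)) hgf a (h.congr_fun (by
      intro v
      by_cases hv : v ∈ A
      · rw [if_pos hv]
        exact (if_pos hv).symm
      · rw [if_neg hv]
        exact (if_neg hv).symm))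
  refine hfin.congr_fun ?_
  intro J
  by_cases hJ : J ∈ B
  · rw [if_pos hJ]
    exact (if_pos hJ)
  · rw [if_neg hJ]
    exact (if_neg hJ)

end Pool.Agent.H29.DF
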