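import Pool.Agent.H29.DF.Targets

/-!
# DIHEDRAL, part E: the mean square over the characters of one conductor (row XE2)
-/

set_option autoImplicit false

open MeasureTheory Set Filter NumberField
open scoped Real nonZeroDivisors Matrix MatrixGroups

namespace Pool.Agent.H29.DF

open Pool.Agent.H31.CN Pool.Agent.H89.FM Pool.Agent.H61.FM Pool.Agent.H89.FC Pool.Agent.H95.FC
open Pool.Agent.H89.DF Pool.Agent.H95.DR

lemma xe2_w (ν B : ℝ) (hB : 1 ≤ B) (hν : |ν| ≤ B) :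
    1 / (2 * B) ≤
      ‖∫ τ in (0 : ℝ)..(1 / B), Complex.exp (-(((ν * τ : ℝ) : ℂ) * Complex.I))‖ := by
  have hB0 : 0 < B := by linarith
  have hc : Continuous fun τ : ℝ => Complex.exp (-(((ν * τ : ℝ) : ℂ) * Complex.I)) := by
    fun_prop
  have h1 : (∫ τ in (0 : ℝ)..(1 / B), Complex.exp (-(((ν * τ : ℝ) : ℂ) * Complex.I))).re =
      ∫ τ in (0 : ℝ)..(1 / B), Real.cos (ν * τ) := by
    have h2 := (Complex.reCLM).intervalIntegral_comp_comm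
      (hc.intervalIntegrable (μ := volume) 0 (1 / B))
    rw [Complex.reCLM_apply] at h2
    rw [← h2]
    refine intervalIntegral.integral_congr fun τ _ => ?_
    simp only [Complex.reCLM_apply]
    rw [← neg_mul, ← Complex.ofReal_neg, Complex.exp_ofReal_mul_I_re, Real.cos_neg]
  have h3 : ∫ _τ in (0 : ℝ)..(1 / B), (1 / 2 : ℝ) ≤ ∫ τ in (0 : ℝ)..(1 / B), Real.cos (ν * τ) := by
    refine intervalIntegral.integral_mono_on (by positivity) (by simp)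
      ((by fun_prop : Continuous fun τ : ℝ => Real.cos (ν * τ)).intervalIntegrable 0 (1 / B)) ?_
    intro τ hτ
    have h4 : |ν * τ| ≤ 1 := by
      rw [abs_mul, abs_of_nonneg hτ.1]
      calc |ν| * τ ≤ B * (1 / B) := mul_le_mul hν hτ.2 hτ.1 hB0.le
        _ = 1 := by field_simp
    have h5 := Real.one_sub_sq_div_two_le_cos (x := ν * τ)
    have h6 : (ν * τ) ^ 2 ≤ 1 := by
      rw [← sq_abs]
      exact pow_le_one₀ (abs_nonneg _) h4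
    linarith
  rw [intervalIntegral.integral_const, smul_eq_mul, sub_zero] at h3
  have h7 : 1 / (2 * B) = 1 / B * (1 / 2) := by field_simp
  rw [h7]
  refine h3.trans ?_
  rw [← h1]
  exact (le_abs_self _).trans (Complex.abs_re_le_norm _)

theorem pf_XE2 (hBES : T_BES) (hORT : T_ORTr) (hVOL : T_VOLr) (hNID : T_NID) (hLC1 : T_LC1r)
    (hDDX : T_DDX) (hUWN : T_UWN) (hXHB : T_XHB) (hXHI : T_XHI) (hXHS : T_XHS)
    (hXHC : T_XHC) : T_EX2 := by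
  classical
  intro ε hε
  obtain ⟨C1, hC1, h1⟩ := hVOL ε hε
  obtain ⟨C2, hC2, h2⟩ := hNID ε hε
  refine ⟨56 * C1 * C2, by positivity, ?_⟩
  intro K _ _ σ σ' D f κ N B g Ψ ν hRQ hB hN hg hΨ
  have hB0 : 0 < B := by linarith
  have hNR : (1 : ℝ) ≤ N := by exact_mod_cast hN
  rcases Ψ.eq_empty_or_nonempty with rfl | ⟨ψ0, hψ0⟩
  · rw [Finset.sum_empty]
    positivity
  have hf : 1 ≤ f := (hΨ ψ0 hψ0).1.pos
  have hfR : (1 : ℝ) ≤ f := by exact_mod_cast hf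
  have hDR : (1 : ℝ) ≤ D := by exact_mod_cast hRQ.pos
  obtain ⟨R⟩ := hDDX K D f σ σ' hRQ hf
  obtain ⟨hP', hn', -⟩ := hUWN K D f σ σ' hRQ R.η R.un
  have hP : 0 < R.P := hP'
  have hn : (0 : ℝ) < R.n := by
    have : 0 < R.n := hn'
    exact_mod_cast this
  obtain ⟨L, hL⟩ : ∃ L : ℝ, L = (D : ℝ) * (f : ℝ) ^ 2 := ⟨_, rfl⟩
  have hL1 : 1 ≤ L := by
    rw [hL]
    have : (1 : ℝ) ≤ (f : ℝ) ^ 2 := one_le_pow₀ hfR
    nlinarith
  have hL0 : 0 < L := by linarith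
  have hsq : (f : ℝ) * Real.sqrt D = L ^ (1 / 2 : ℝ) := by
    rw [← Real.sqrt_eq_rpow, hL, Real.sqrt_mul (by positivity), Real.sqrt_sq (by positivity)]
    ring
  obtain ⟨W, hW⟩ : ∃ W : ℝ, W = 2 + 12 * N / (f * Real.sqrt D) := ⟨_, rfl⟩
  have hLs : 0 < L ^ (1 / 2 : ℝ) := Real.rpow_pos_of_pos hL0 _
  have hW0 : 0 < W := by
    rw [hW, hsq]
    positivity
  obtain ⟨G, hG⟩ : ∃ G : (Σ _ : ClassGroup (𝓞 K), ℤ × ℤ) → ℝ → ℂ,
    G = fun j => Hx σ σ' κ f N g B (R.α j.1) (R.β j.1) (R.Q j.1) j.2 := ⟨_, rfl⟩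
  have hJ : ∀ j ∈ R.J, j.2 ∈ R.T j.1 := fun j hj => (Finset.mem_sigma.1 hj).2
  have hGm : ∀ j ∈ R.J, Measurable (G j) ∧ ∀ τ, ‖G j τ‖ ≤ W := by
    intro j hj
    rw [hG, hW]
    exact hXHB K D f σ σ' hRQ hf R j.1 κ N g B hB hg j.2 (hJ j hj)
  have hbes := hBES (Ideal (𝓞 K) → ℂ) (Σ _ : ClassGroup (𝓞 K), ℤ × ℤ) Ψ R.J
    (fun ψ j => R.ρ κ (ν ψ) ψ j.1 j.2) ν R.P G hP
    (fun ψ hψ j hj => (hORT K D f σ σ' hRQ R κ (ν ψ) (ν ψ) ψ ψ (hΨ ψ hψ).1 (hΨ ψ hψ).1).1 j hj)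
    (fun j hj => ⟨(hGm j hj).1.aestronglyMeasurable, W, fun τ _ => (hGm j hj).2 τ⟩)
    (fun ψ hψ ψ' hψ' hne =>
      (hORT K D f σ σ' hRQ R κ (ν ψ) (ν ψ') ψ ψ' (hΨ ψ hψ).1 (hΨ ψ' hψ').1).2 hne)
  have hexp : ∀ ψ ∈ Ψ, Complex.exp (((ν ψ * R.P : ℝ) : ℂ) * Complex.I) = 1 := fun ψ hψ =>
    (hLC1 K σ σ' f κ (ν ψ) ψ (hΨ ψ hψ).1).2.2 D R.η hRQ R.un
  have key : ∀ ψ ∈ Ψ, (R.n : ℝ) ^ 2 / (4 * B ^ 2) * ‖∑ n ∈ Sq N, g n * lc ψ n‖ ^ 2 ≤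
      ‖∑ j ∈ R.J, R.ρ κ (ν ψ) ψ j.1 j.2 * ∫ τ in (0 : ℝ)..R.P, G j τ *
        Complex.exp (-(((ν ψ * τ : ℝ) : ℂ) * Complex.I))‖ ^ 2 := by
    intro ψ hψ
    have e1 : ∑ j ∈ R.J, R.ρ κ (ν ψ) ψ j.1 j.2 * ∫ τ in (0 : ℝ)..R.P, G j τ *
        Complex.exp (-(((ν ψ * τ : ℝ) : ℂ) * Complex.I)) =
        ((R.n : ℂ) * ∑ n ∈ Sq N, g n * lc ψ n) *
          ∫ τ in (0 : ℝ)..(1 / B), Complex.exp (-(((ν ψ * τ : ℝ) : ℂ) * Complex.I)) := by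
      rw [← hXHS K D f σ σ' hRQ hf R κ N (ν ψ) g ψ (hΨ ψ hψ).1, Finset.sum_mul]
      refine Finset.sum_congr rfl fun j hj => ?_
      have e2 := (hXHI K D f σ σ' hRQ hf R j.1 κ N (ν ψ) g B hB hg (hexp ψ hψ) j.2 (hJ j hj)).2.1
      rw [hG]
      simp only
      rw [e2, mul_assoc]
    rw [e1, norm_mul, norm_mul, Complex.norm_natCast, mul_pow, mul_pow]
    have e3 := xe2_w (ν ψ) B hB (hΨ ψ hψ).2
    have e4 : (1 / (2 * B)) ^ 2 ≤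
        ‖∫ τ in (0 : ℝ)..(1 / B), Complex.exp (-(((ν ψ * τ : ℝ) : ℂ) * Complex.I))‖ ^ 2 :=
      pow_le_pow_left₀ (by positivity) e3 2
    calc (R.n : ℝ) ^ 2 / (4 * B ^ 2) * ‖∑ n ∈ Sq N, g n * lc ψ n‖ ^ 2
        = (R.n : ℝ) ^ 2 * ‖∑ n ∈ Sq N, g n * lc ψ n‖ ^ 2 * (1 / (2 * B)) ^ 2 := by
          field_simp
          ring
      _ ≤ _ := mul_le_mul_of_nonneg_left e4 (by positivity)
  have hint : ∀ j ∈ R.J, ∫ τ in (0 : ℝ)..R.P, ‖G j τ‖ ^ 2 ≤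
      W * ∫ τ in (0 : ℝ)..R.P, ‖G j τ‖ := by
    intro j hj
    obtain ⟨m1, m2⟩ := hGm j hj
    have i1 : IntervalIntegrable (fun τ => ‖G j τ‖) volume 0 R.P := by
      rw [intervalIntegrable_iff_integrableOn_Ioc_of_le hP.le]
      refine Integrable.mono' (g := fun _ => W) (by simp) m1.norm.aestronglyMeasurable ?_
      exact Filter.Eventually.of_forall fun τ => by
        rw [norm_norm]
        exact m2 τ
    have i2 : IntervalIntegrable (fun τ => ‖G j τ‖ ^ 2) volume 0 R.P := by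
      rw [intervalIntegrable_iff_integrableOn_Ioc_of_le hP.le]
      refine Integrable.mono' (g := fun _ => W ^ 2) (by simp)
        (m1.norm.pow_const 2).aestronglyMeasurable ?_
      exact Filter.Eventually.of_forall fun τ => by
        rw [Real.norm_of_nonneg (by positivity)]
        exact pow_le_pow_left₀ (norm_nonneg _) (m2 τ) 2
    rw [← intervalIntegral.integral_const_mul]
    refine intervalIntegral.integral_mono_on hP.le i2 (i1.const_mul W) fun τ _ => ?_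
    rw [pow_two]
    exact mul_le_mul_of_nonneg_right (m2 τ) (norm_nonneg _)
  have hNn : (∑ n ∈ Sq N, ((Nn K n).card : ℝ)) ≤ C2 * (N : ℝ) ^ (1 + ε) := by
    have e1 : ∀ n ∈ Sq N, ((Nn K n).card : ℝ) ≤ C2 * (N : ℝ) ^ ε := by
      intro n hn
      rw [Sq, Finset.mem_filter, Finset.mem_Icc] at hn
      refine (h2 K hRQ.rk n hn.1.1).trans ?_
      have : (n : ℝ) ≤ N := by exact_mod_cast hn.1.2
      exact mul_le_mul_of_nonneg_left (Real.rpow_le_rpow (Nat.cast_nonneg _) this hε.le) hC2.le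
    have e2 : ((Sq N).card : ℝ) ≤ N := by
      have : (Sq N).card ≤ (Finset.Icc 1 N).card := Finset.card_filter_le _ _
      rw [Nat.card_Icc] at this
      exact_mod_cast (by omega : (Sq N).card ≤ N)
    calc (∑ n ∈ Sq N, ((Nn K n).card : ℝ)) ≤ ∑ n ∈ Sq N, C2 * (N : ℝ) ^ ε :=
          Finset.sum_le_sum e1
      _ = ((Sq N).card : ℝ) * (C2 * (N : ℝ) ^ ε) := by rw [Finset.sum_const, nsmul_eq_mul]
      _ ≤ (N : ℝ) * (C2 * (N : ℝ) ^ ε) := mul_le_mul_of_nonneg_right e2 (by positivity)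
      _ = C2 * (N : ℝ) ^ (1 + ε) := by
          rw [Real.rpow_add (by linarith), Real.rpow_one]
          ring
  have hsum : ∑ j ∈ R.J, ∫ τ in (0 : ℝ)..R.P, ‖G j τ‖ ^ 2 ≤
      W * (1 / B * (R.n * (C2 * (N : ℝ) ^ (1 + ε)))) := by
    have e1 : ∀ j ∈ R.J, ∫ τ in (0 : ℝ)..R.P, ‖G j τ‖ ≤
        1 / B * ({v : ℤ × ℤ | Lx f N (R.Q j.1) j.2 v ∧
          Wd σ σ' (R.α j.1) (R.β j.1) R.η 0 v}.ncard : ℝ) := by
      intro j hj
      rw [hG]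
      exact (hXHI K D f σ σ' hRQ hf R j.1 κ N (ν ψ0) g B hB hg (hexp ψ0 hψ0) j.2 (hJ j hj)).2.2
    have e2 := hXHC K D f σ σ' hRQ hf R N
    have e3 : (∑ j ∈ R.J, ({v : ℤ × ℤ | Lx f N (R.Q j.1) j.2 v ∧
        Wd σ σ' (R.α j.1) (R.β j.1) R.η 0 v}.ncard : ℝ)) ≤
        R.n * (C2 * (N : ℝ) ^ (1 + ε)) := by
      have e4 : (∑ j ∈ R.J, ({v : ℤ × ℤ | Lx f N (R.Q j.1) j.2 v ∧
          Wd σ σ' (R.α j.1) (R.β j.1) R.η 0 v}.ncard : ℝ)) ≤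
          R.n * ∑ n ∈ Sq N, ((Nn K n).card : ℝ) := by exact_mod_cast e2
      exact e4.trans (mul_le_mul_of_nonneg_left hNn hn.le)
    calc ∑ j ∈ R.J, ∫ τ in (0 : ℝ)..R.P, ‖G j τ‖ ^ 2
        ≤ ∑ j ∈ R.J, W * (1 / B * ({v : ℤ × ℤ | Lx f N (R.Q j.1) j.2 v ∧
          Wd σ σ' (R.α j.1) (R.β j.1) R.η 0 v}.ncard : ℝ)) :=
          Finset.sum_le_sum fun j hj =>
            (hint j hj).trans (mul_le_mul_of_nonneg_left (e1 j hj) hW0.le)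
      _ = W * (1 / B * ∑ j ∈ R.J, ({v : ℤ × ℤ | Lx f N (R.Q j.1) j.2 v ∧
          Wd σ σ' (R.α j.1) (R.β j.1) R.η 0 v}.ncard : ℝ)) := by
          rw [Finset.mul_sum, Finset.mul_sum]
      _ ≤ _ := by gcongr
  have hvol := h1 K D f σ σ' hRQ hf R
  rw [← hL] at hvol ⊢
  obtain ⟨A, hA⟩ : ∃ A : ℝ, A = ∑ ψ ∈ Ψ, ‖∑ n ∈ Sq N, g n * lc ψ n‖ ^ 2 := ⟨_, rfl⟩
  have hmain : (R.n : ℝ) ^ 2 / (4 * B ^ 2) * A ≤
      (C1 * R.n * L ^ (1 / 2 + ε)) * (W * (1 / B * (R.n * (C2 * (N : ℝ) ^ (1 + ε))))) := by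
    rw [hA, Finset.mul_sum]
    refine (Finset.sum_le_sum key).trans (hbes.trans ?_)
    refine mul_le_mul hvol hsum ?_ (by positivity)
    exact Finset.sum_nonneg fun j _ =>
      intervalIntegral.integral_nonneg hP.le fun τ _ => by positivity
  rw [← hA]
  have hWL : L ^ (1 / 2 + ε) * W ≤ 14 * (L ^ (1 / 2 : ℝ) + N) * L ^ ε := by
    rw [Real.rpow_add hL0, hW, hsq]
    have e1 : L ^ (1 / 2 : ℝ) * (2 + 12 * N / L ^ (1 / 2 : ℝ)) ≤ 14 * (L ^ (1 / 2 : ℝ) + N) := by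
      have e2 : L ^ (1 / 2 : ℝ) * (2 + 12 * N / L ^ (1 / 2 : ℝ)) =
          2 * L ^ (1 / 2 : ℝ) + 12 * N := by
        field_simp
      rw [e2]
      linarith
    calc L ^ (1 / 2 : ℝ) * L ^ ε * (2 + 12 * N / L ^ (1 / 2 : ℝ))
        = (L ^ (1 / 2 : ℝ) * (2 + 12 * N / L ^ (1 / 2 : ℝ))) * L ^ ε := by ring
      _ ≤ _ := mul_le_mul_of_nonneg_right e1 (by positivity)
  have hc : 0 < (R.n : ℝ) ^ 2 / (4 * B ^ 2) := by positivity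
  refine le_of_mul_le_mul_left (hmain.trans ?_) hc
  calc (C1 * R.n * L ^ (1 / 2 + ε)) * (W * (1 / B * (R.n * (C2 * (N : ℝ) ^ (1 + ε)))))
      = (L ^ (1 / 2 + ε) * W) * (C1 * C2 * (R.n : ℝ) ^ 2 / B * (N : ℝ) ^ (1 + ε)) := by
        field_simp
    _ ≤ (14 * (L ^ (1 / 2 : ℝ) + N) * L ^ ε) *
        (C1 * C2 * (R.n : ℝ) ^ 2 / B * (N : ℝ) ^ (1 + ε)) :=
        mul_le_mul_of_nonneg_right hWL (by positivity)
    _ = _ := by
        field_simp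
        ring

end Pool.Agent.H29.DF
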