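import Pool.Agent.H29.DF.Targets

/-!
# DIHEDRAL, part E: the twisted second moment over exceptional discriminants (row XEF)
-/

set_option autoImplicit false

open MeasureTheory Set Filter NumberField
open scoped Real nonZeroDivisors Matrix MatrixGroups

namespace Pool.Agent.H29.DF

open Pool.Agent.H31.CN Pool.Agent.H89.FM Pool.Agent.H61.FM Pool.Agent.H89.FC Pool.Agent.H95.FC
open Pool.Agent.H89.DF Pool.Agent.H95.DR

theorem pf_XEF (hEX1 : T_EX1) (hEX2 : T_EX2) : T_EXF := by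
  classical
  intro ε hε
  obtain ⟨e, he⟩ : ∃ e : ℝ, e = ε / 16 := ⟨_, rfl⟩
  have he0 : 0 < e := by rw [he]; positivity
  obtain ⟨C1, k1, hC1, h1⟩ := hEX1 e he0
  obtain ⟨C2, hC2, h2⟩ := hEX2 e he0
  obtain ⟨κ₀, hκ⟩ : ∃ κ₀ : ℝ, κ₀ = min (1 / 8) (ε / 8) := ⟨_, rfl⟩
  obtain ⟨δ, hδ⟩ : ∃ δ : ℝ, δ = min 1 (ε / 2) := ⟨_, rfl⟩
  have hκ0 : 0 < κ₀ := by rw [hκ]; positivity
  have hκ1 : κ₀ ≤ 1 / 8 := by rw [hκ]; exact min_le_left _ _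
  have hκ2 : κ₀ ≤ ε / 8 := by rw [hκ]; exact min_le_right _ _
  have hδ0 : 0 < δ := by rw [hδ]; positivity
  have hδ1 : δ ≤ 1 := by rw [hδ]; exact min_le_left _ _
  have hδ2 : δ ≤ ε / 2 := by rw [hδ]; exact min_le_right _ _
  refine ⟨κ₀, hκ0, hκ1, δ, hδ0, 4 * C1 * C2, k1 + 1, by positivity, ?_⟩
  intro s X V N α K _ _ σ σ' S f κ ν F E hs hX hV hN hNX hα hS hE
  have hX0 : 0 < X := by linarith
  have hNR : (1 : ℝ) ≤ N := by exact_mod_cast hN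
  obtain ⟨U, hU⟩ : ∃ U : ℝ, U = 1 + |s.im| + V := ⟨_, rfl⟩
  have hUV : V ≤ U := by
    rw [hU]
    have := abs_nonneg s.im
    linarith
  have hU1 : 1 ≤ U := by linarith
  -- the bound of a fibre
  obtain ⟨M, hM⟩ : ∃ M : ℝ, M = 2 * C1 * C2 * U ^ (k1 + 1) *
    (X ^ (1 / 2 + κ₀ + e) * X ^ ((1 + δ) / 2) * X ^ e * X ^ e) * N := ⟨_, rfl⟩
  have hfib : ∀ q : ℕ × ℕ × ℕ, ∑ x ∈ S.filter (fun x => (x.1, f x, κ x) = q),
      ‖∑ n ∈ Sq N, α n * lc x.2 n‖ ^ 2 * ‖F x s‖ ^ 2 ≤ M := by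
    rintro ⟨D, f0, κ1⟩
    have hMn : 0 ≤ M := by rw [hM]; positivity
    rcases (S.filter (fun x => (x.1, f x, κ x) = (D, f0, κ1))).eq_empty_or_nonempty with h | ⟨x0, hx0⟩
    · rw [h, Finset.sum_empty]
      exact hMn
    have hmem : ∀ x ∈ S.filter (fun x => (x.1, f x, κ x) = (D, f0, κ1)),
        x ∈ S ∧ x.1 = D ∧ f x = f0 ∧ κ x = κ1 := by
      intro x hx
      rw [Finset.mem_filter, Prod.mk.injEq, Prod.mk.injEq] at hx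
      exact ⟨hx.1, hx.2.1, hx.2.2.1, hx.2.2.2⟩
    have hinj : Set.InjOn (fun ψ : Ideal (𝓞 (K D)) → ℂ => (⟨D, ψ⟩ : IXr K))
        ((fun ψ : Ideal (𝓞 (K D)) → ℂ => (⟨D, ψ⟩ : IXr K)) ⁻¹'
          ((S.filter (fun x => (x.1, f x, κ x) = (D, f0, κ1)) : Finset (IXr K)) :
            Set (IXr K))) := by
      intro a _ b _ h
      exact eq_of_heq (Sigma.mk.inj h).2
    have hsum := Finset.sum_preimage (fun ψ : Ideal (𝓞 (K D)) → ℂ => (⟨D, ψ⟩ : IXr K))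
      (S.filter (fun x => (x.1, f x, κ x) = (D, f0, κ1))) hinj
      (fun x => ‖∑ n ∈ Sq N, α n * lc x.2 n‖ ^ 2 * ‖F x s‖ ^ 2) (by
        intro x hx hxr
        exfalso
        apply hxr
        obtain ⟨_, h3, _, _⟩ := hmem x hx
        obtain ⟨d, ψ⟩ := x
        simp only at h3
        subst h3
        exact ⟨ψ, rfl⟩)
    rw [← hsum]
    obtain ⟨Ψ, hΨ⟩ : ∃ Ψ : Finset (Ideal (𝓞 (K D)) → ℂ),
      Ψ = (S.filter (fun x => (x.1, f x, κ x) = (D, f0, κ1))).preimage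
        (fun ψ : Ideal (𝓞 (K D)) → ℂ => (⟨D, ψ⟩ : IXr K)) hinj := ⟨_, rfl⟩
    rw [← hΨ]
    have hΨm : ∀ ψ ∈ Ψ, (⟨D, ψ⟩ : IXr K) ∈ S ∧ f ⟨D, ψ⟩ = f0 ∧ κ ⟨D, ψ⟩ = κ1 := by
      intro ψ hψ
      rw [hΨ, Finset.mem_preimage] at hψ
      obtain ⟨a1, a2, a3, a4⟩ := hmem _ hψ
      exact ⟨a1, a3, a4⟩
    obtain ⟨b1, b2, b3, b4⟩ := hmem x0 hx0
    have hRQ : RQ (K D) D (σ D) (σ' D) := by
      have := hS.rq x0 b1
      rw [b2] at this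
      exact this
    obtain ⟨L, hL⟩ : ∃ L : ℝ, L = (D : ℝ) * (f0 : ℝ) ^ 2 := ⟨_, rfl⟩
    have hLX : L ≤ X := by
      have := (hS.q x0 b1).2
      unfold lvr at this
      rw [b2, b3] at this
      rw [hL]
      exact this
    have hf0 : 1 ≤ f0 := by
      have := (hS.ch x0 b1).pos
      rw [b3] at this
      exact this
    have hL1 : 1 ≤ L := by
      have e1 : (1 : ℝ) ≤ D := by exact_mod_cast hRQ.pos
      have e2 : (1 : ℝ) ≤ f0 := by exact_mod_cast hf0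
      have e3 : (1 : ℝ) ≤ (f0 : ℝ) ^ 2 := one_le_pow₀ e2
      rw [hL]
      nlinarith
    have hL0 : 0 < L := by linarith
    have hch : ∀ ψ ∈ Ψ, RCr (K D) (σ D) (σ' D) f0 κ1 (ν ⟨D, ψ⟩) ψ ∧ |ν ⟨D, ψ⟩| ≤ V := by
      intro ψ hψ
      obtain ⟨a1, a2, a3⟩ := hΨm ψ hψ
      have := hS.ch _ a1
      rw [a2, a3] at this
      exact ⟨this, hS.nu _ a1⟩
    have hF : ∀ ψ ∈ Ψ, ‖F ⟨D, ψ⟩ s‖ ^ 2 ≤ C1 * U ^ k1 * X ^ (1 / 2 + κ₀ + e) := by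
      intro ψ hψ
      obtain ⟨a1, a2, a3⟩ := hΨm ψ hψ
      obtain ⟨c1, c2⟩ := hch ψ hψ
      have hh := h1 (K D) (σ D) (σ' D) D f0 κ1 (ν ⟨D, ψ⟩) ψ (F ⟨D, ψ⟩) s κ₀ hRQ c1 (hS.lf _ a1)
        hs hκ1
      refine hh.trans ?_
      rw [← hL]
      have d1 : (1 + |s.im| + |ν ⟨D, ψ⟩|) ^ k1 ≤ U ^ k1 := by
        refine pow_le_pow_left₀ (by positivity) ?_ k1
        rw [hU]
        linarith
      have d2 : L ^ (1 / 2 + κ₀ + e) ≤ X ^ (1 / 2 + κ₀ + e) :=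
        Real.rpow_le_rpow hL0.le hLX (by positivity)
      gcongr
    have hA := h2 (K D) (σ D) (σ' D) D f0 κ1 N V α Ψ (fun ψ => ν ⟨D, ψ⟩) hRQ hV hN hα hch
    rw [← hL] at hA
    have hNX1 : (N : ℝ) ≤ X := by
      refine hNX.trans ?_
      calc X ^ ((1 + δ) / 2) ≤ X ^ (1 : ℝ) :=
            Real.rpow_le_rpow_of_exponent_le hX (by linarith)
        _ = X := Real.rpow_one X
    have hA' : ∑ ψ ∈ Ψ, ‖∑ n ∈ Sq N, α n * lc ψ n‖ ^ 2 ≤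
        C2 * U * (2 * X ^ ((1 + δ) / 2)) * X ^ e * (N * X ^ e) := by
      refine hA.trans ?_
      have d1 : L ^ (1 / 2 : ℝ) + N ≤ 2 * X ^ ((1 + δ) / 2) := by
        have g1 : L ^ (1 / 2 : ℝ) ≤ X ^ (1 / 2 : ℝ) := Real.rpow_le_rpow hL0.le hLX (by norm_num)
        have g2 : X ^ (1 / 2 : ℝ) ≤ X ^ ((1 + δ) / 2) :=
          Real.rpow_le_rpow_of_exponent_le hX (by linarith)
        linarith
      have d2 : L ^ e ≤ X ^ e := Real.rpow_le_rpow hL0.le hLX he0.le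
      have d3 : (N : ℝ) ^ (1 + e) ≤ N * X ^ e := by
        rw [Real.rpow_add (by linarith), Real.rpow_one]
        exact mul_le_mul_of_nonneg_left (Real.rpow_le_rpow (by linarith) hNX1 he0.le)
          (by linarith)
      gcongr
    calc ∑ ψ ∈ Ψ, ‖∑ n ∈ Sq N, α n * lc (⟨D, ψ⟩ : IXr K).2 n‖ ^ 2 * ‖F ⟨D, ψ⟩ s‖ ^ 2
        ≤ ∑ ψ ∈ Ψ, ‖∑ n ∈ Sq N, α n * lc ψ n‖ ^ 2 * (C1 * U ^ k1 * X ^ (1 / 2 + κ₀ + e)) :=
          Finset.sum_le_sum fun ψ hψ => mul_le_mul_of_nonneg_left (hF ψ hψ) (by positivity)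
      _ = (∑ ψ ∈ Ψ, ‖∑ n ∈ Sq N, α n * lc ψ n‖ ^ 2) * (C1 * U ^ k1 * X ^ (1 / 2 + κ₀ + e)) := by
          rw [Finset.sum_mul]
      _ ≤ (C2 * U * (2 * X ^ ((1 + δ) / 2)) * X ^ e * (N * X ^ e)) *
          (C1 * U ^ k1 * X ^ (1 / 2 + κ₀ + e)) := by gcongr
      _ = M := by
          rw [hM, pow_succ]
          ring
  -- the fibres
  obtain ⟨T, hT⟩ : ∃ T : Finset (ℕ × ℕ × ℕ),
    T = E ×ˢ (Finset.Icc 1 ⌊Real.sqrt X⌋₊ ×ˢ Finset.range 2) := ⟨_, rfl⟩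
  have hmaps : ∀ x ∈ S, (x.1, f x, κ x) ∈ T := by
    intro x hx
    rw [hT, Finset.mem_product, Finset.mem_product, Finset.mem_Icc, Finset.mem_range]
    have c1 := (hS.ch x hx).pos
    have c2 := (hS.ch x hx).kap
    have c3 := (hS.q x hx).2
    have c4 : (1 : ℝ) ≤ x.1 := by exact_mod_cast (hS.rq x hx).pos
    have c6 : κ x < 2 := by omega
    refine ⟨hE x hx, ⟨c1, ?_⟩, c6⟩
    refine Nat.le_floor (Real.le_sqrt_of_sq_le ?_)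
    unfold lvr at c3
    have c5 : (0 : ℝ) ≤ (f x : ℝ) ^ 2 := by positivity
    nlinarith
  rw [← Finset.sum_fiberwise_of_maps_to hmaps]
  have hTc : (T.card : ℝ) ≤ 2 * E.card * X ^ (1 / 2 : ℝ) := by
    have d1 : T.card = E.card * (⌊Real.sqrt X⌋₊ * 2) := by
      rw [hT, Finset.card_product, Finset.card_product, Nat.card_Icc, Finset.card_range]
      simp
    have d2 : (⌊Real.sqrt X⌋₊ : ℝ) ≤ X ^ (1 / 2 : ℝ) := by
      rw [← Real.sqrt_eq_rpow]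
      exact Nat.floor_le (Real.sqrt_nonneg _)
    rw [d1]
    push_cast
    calc (E.card : ℝ) * (⌊Real.sqrt X⌋₊ * 2) ≤ (E.card : ℝ) * (X ^ (1 / 2 : ℝ) * 2) := by gcongr
      _ = _ := by ring
  have hMn : 0 ≤ M := by rw [hM]; positivity
  calc _ ≤ ∑ q ∈ T, M := Finset.sum_le_sum fun q _ => hfib q
    _ = (T.card : ℝ) * M := by rw [Finset.sum_const, nsmul_eq_mul]
    _ ≤ (2 * E.card * X ^ (1 / 2 : ℝ)) * M := mul_le_mul_of_nonneg_right hTc hMn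
    _ = 4 * C1 * C2 * U ^ (k1 + 1) * E.card * (X ^ (1 / 2 : ℝ) *
        (X ^ (1 / 2 + κ₀ + e) * X ^ ((1 + δ) / 2) * X ^ e * X ^ e)) * N := by
        rw [hM]
        ring
    _ ≤ 4 * C1 * C2 * U ^ (k1 + 1) * E.card * X ^ (3 / 2 + ε) * N := by
        have d1 : X ^ (1 / 2 : ℝ) * (X ^ (1 / 2 + κ₀ + e) * X ^ ((1 + δ) / 2) * X ^ e * X ^ e) ≤
            X ^ (3 / 2 + ε) := by
          rw [← Real.rpow_add hX0, ← Real.rpow_add hX0, ← Real.rpow_add hX0,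
            ← Real.rpow_add hX0]
          refine Real.rpow_le_rpow_of_exponent_le hX ?_
          rw [he]
          linarith
        gcongr
    _ = _ := by rw [hU]

end Pool.Agent.H29.DF
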