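import Pool.Agent.H19.DFX.XKS
import Pool.Agent.H19.DFX.XSP
import Pool.Agent.H14.DF.XHI
import Pool.Agent.H14.DF.XHB
import Pool.Agent.H48.DF.XE1
import Pool.Agent.H39.DF.XHC
import Pool.Agent.H35.DF.XHS
import Pool.Agent.H29.DF.XE2
import Pool.Agent.H29.DF.XEF

/-!
# DIHEDRAL, part E: assembly
-/

set_option autoImplicit false

open MeasureTheory Set Filter NumberField
open scoped Real nonZeroDivisors Matrix MatrixGroups

namespace Pool.Agent.H29.DF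

open Pool.Agent.H31.CN Pool.Agent.H89.FM Pool.Agent.H61.FM Pool.Agent.H89.FC Pool.Agent.H95.FC
open Pool.Agent.H89.DF Pool.Agent.H95.DR

/-- (EXF) the twisted second moment over exceptional discriminants from the targets of the other
parts. -/
theorem partE (hLFK : T_LFKr) (hKRB : T_KRBr) (hCRL : T_CRL) (hGML : T_GMLc) (hNID : T_NID)
    (hBES : T_BES) (hORT : T_ORTr) (hVOL : T_VOLr) (hLC1 : T_LC1r) (hDDX : T_DDX) (hUWN : T_UWN)
    (hEMB : T_EMB) (hPBG : T_PBG) (hPBT : T_PBT) (hTRN : T_TRN) (hSEP : T_SEP) (hUNF : H89.DF.T_UNF)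
    (hUNR : T_UNR) (hUAC : T_UAC) (hTYR : T_TYR) (hSUM : T_SUMr) (hTWS : T_TWSr)
    (hWND : T_WND) : T_EXF :=
  pf_XEF
    (Pool.Agent.H48.DF.pf_XE1 hLFK hKRB hCRL hGML (Pool.Agent.H19.DFX.pf_XKS hNID))
    (pf_XE2 hBES hORT hVOL hNID hLC1 hDDX hUWN
      (Pool.Agent.H14.DF.pf_XHB (Pool.Agent.H19.DFX.pf_XSP hEMB hPBG hPBT hTRN hSEP))
      (Pool.Agent.H14.DF.pf_XHI hUNF hUNR hUAC hUWN hTYR hEMB)
      (Pool.Agent.H35.DF.pf_XHS hSUM hTWS hEMB hUWN)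
      (Pool.Agent.H39.DF.pf_XHC hWND hTRN hEMB))

end Pool.Agent.H29.DF
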