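import Pool.Agent.H84.BV.LS
import Pool.Agent.H60.BV.GS
import Pool.Agent.Ratios.CharFacts

/-!
# Exceptional discriminants, part 1: the large sieve for the characters `χ_{8 d}`, `d` odd and
squarefree, and the `k`-th power of a sum over primes
-/

set_option autoImplicit false

open Finset Real

namespace Pool.Agent.H29.DF

open Pool.Agent.H30.BV (PCH PC cv T_LS)
open Pool.Agent.Ratios (Fam chi8)

theorem tLS : T_LS := Pool.Agent.H84.BV.ls Pool.Agent.H60.BV.gs

lemma exists_pch (Q m : ℕ) (χ : DirichletCharacter ℂ m) (hχ : χ.IsPrimitive) (hm : 2 ≤ m)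
    (hmQ : m ≤ Q) : ∃ x ∈ PC Q, x.1 + 1 = m ∧ ∀ n : ℕ, cv x.2 n = χ (n : ZMod m) := by
  classical
  cases m with
  | zero => omega
  | succ m =>
    refine ⟨⟨m, χ⟩, ?_, rfl, fun n => rfl⟩
    unfold PC
    rw [Finset.mem_sigma, Finset.mem_Ico]
    have e1 : 1 ≤ m := by omega
    have e2 : m < Q := by omega
    exact ⟨⟨e1, e2⟩, Finset.mem_filter.2 ⟨Finset.mem_univ _, hχ⟩⟩

/-- The large sieve for the characters `χ_{8 d}`. -/
theorem ls8 (F : Finset Fam) (Q N : ℕ) (a : ℕ → ℂ) (hF : ∀ d ∈ F, 8 * (d : ℤ).natAbs ≤ Q) :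
    ∑ d ∈ F, ‖∑ n ∈ range N, a n * chi8 (d : ℤ) (n : ZMod (8 * (d : ℤ).natAbs))‖ ^ 2 ≤
      ((Q : ℝ) ^ 2 + 4 * π * N) * ∑ n ∈ range N, ‖a n‖ ^ 2 := by
  classical
  have h1 : ∀ d : Fam, ∃ x : PCH, d ∈ F → (x ∈ PC Q ∧ x.1 + 1 = 8 * (d : ℤ).natAbs ∧
      ∀ n : ℕ, cv x.2 n = chi8 (d : ℤ) (n : ZMod (8 * (d : ℤ).natAbs))) := by
    intro d
    by_cases hd : d ∈ F
    · obtain ⟨x, hx, h2, h3⟩ := exists_pch Q _ (chi8 (d : ℤ)) (Pool.Agent.Ratios.isPrimitive_chi8 d)
        (by have := Pool.Agent.Ratios.natAbs_pos d; omega) (hF d hd)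
      exact ⟨x, fun _ => ⟨hx, h2, h3⟩⟩
    · exact ⟨⟨0, 1⟩, fun h => absurd h hd⟩
  choose f hf using h1
  have hinj : Set.InjOn f F := by
    intro d hd d' hd' h
    obtain ⟨-, h2, h3⟩ := hf d hd
    obtain ⟨-, h2', h3'⟩ := hf d' hd'
    rw [← h] at h2' h3'
    have h4 : (d : ℤ).natAbs = (d' : ℤ).natAbs := by omega
    rcases Int.natAbs_eq_natAbs_iff.1 h4 with h5 | h5
    · exact Subtype.ext h5
    · exfalso
      have hp := Pool.Agent.Ratios.natAbs_pos d
      obtain ⟨n, hn⟩ : ∃ n : ℕ, n + 1 = 8 * (d : ℤ).natAbs := ⟨8 * (d : ℤ).natAbs - 1, by omega⟩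
      have e1 : (n : ZMod (8 * (d : ℤ).natAbs)) = -1 := by
        have h6 : ((n + 1 : ℕ) : ZMod (8 * (d : ℤ).natAbs)) = 0 := by
          rw [hn]
          exact ZMod.natCast_self _
        push_cast at h6
        exact eq_neg_of_add_eq_zero_left h6
      have e2 : (n : ZMod (8 * (d' : ℤ).natAbs)) = -1 := by
        have h6 : ((n + 1 : ℕ) : ZMod (8 * (d' : ℤ).natAbs)) = 0 := by
          rw [hn, h4]
          exact ZMod.natCast_self _
        push_cast at h6
        exact eq_neg_of_add_eq_zero_left h6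
      have h7 := (h3 n).symm.trans (h3' n)
      rw [e1, e2] at h7
      rcases lt_trichotomy (d : ℤ) 0 with hs | hs | hs
      · have a1 : chi8 (d : ℤ) (-1) = -1 := Pool.Agent.Ratios.chi8_neg_one_of_neg d hs
        have a2 : chi8 (d' : ℤ) (-1) = 1 := Pool.Agent.Ratios.chi8_neg_one_of_pos d' (by omega)
        rw [a1, a2] at h7
        norm_num at h7
      · omega
      · have a1 : chi8 (d : ℤ) (-1) = 1 := Pool.Agent.Ratios.chi8_neg_one_of_pos d hs
        have a2 : chi8 (d' : ℤ) (-1) = -1 := Pool.Agent.Ratios.chi8_neg_one_of_neg d' (by omega)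
        rw [a1, a2] at h7
        norm_num at h7
  calc ∑ d ∈ F, ‖∑ n ∈ range N, a n * chi8 (d : ℤ) (n : ZMod (8 * (d : ℤ).natAbs))‖ ^ 2
      = ∑ d ∈ F, ‖∑ n ∈ range N, a n * cv (f d).2 n‖ ^ 2 := by
        refine Finset.sum_congr rfl fun d hd => ?_
        rw [Finset.sum_congr rfl fun n _ => by rw [← (hf d hd).2.2 n]]
    _ = ∑ x ∈ F.image f, ‖∑ n ∈ range N, a n * cv x.2 n‖ ^ 2 := by
        rw [Finset.sum_image hinj]
    _ ≤ ∑ x ∈ PC Q, ‖∑ n ∈ range N, a n * cv x.2 n‖ ^ 2 := by
        refine Finset.sum_le_sum_of_subset_of_nonneg ?_ fun _ _ _ => by positivity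
        intro x hx
        obtain ⟨d, hd, rfl⟩ := Finset.mem_image.1 hx
        exact (hf d hd).1
    _ ≤ _ := tLS Q N a

/-! ## The `k`-th power of a sum over primes -/

open Classical in
/-- the number of the representations of `n` as an ordered product of `k` elements of `P` -/
noncomputable def rep (P : Finset ℕ) (k n : ℕ) : ℕ :=
  ((Fintype.piFinset fun _ : Fin k => P).filter fun f => ∏ i, f i = n).card

lemma rep_le (P : Finset ℕ) (hP : ∀ p ∈ P, p.Prime) (k n : ℕ) : rep P k n ≤ k.factorial := by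
  classical
  unfold rep
  rcases Finset.eq_empty_or_nonempty
    ((Fintype.piFinset fun _ : Fin k => P).filter fun f => ∏ i, f i = n) with h | ⟨f0, h0⟩
  · rw [h, Finset.card_empty]
    exact Nat.zero_le _
  · rw [Finset.mem_filter, Fintype.mem_piFinset] at h0
    have hperm : ∀ f ∈ (Fintype.piFinset fun _ : Fin k => P).filter (fun f => ∏ i, f i = n),
        List.ofFn f ∈ (List.ofFn f0).permutations := by
      intro f hf
      rw [Finset.mem_filter, Fintype.mem_piFinset] at hf
      rw [List.mem_permutations]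
      have h1 : List.Perm (List.ofFn f) n.primeFactorsList :=
        Nat.primeFactorsList_unique (by rw [List.prod_ofFn]; exact hf.2) (by
          intro p hp
          obtain ⟨i, rfl⟩ := (List.mem_ofFn' f p).1 hp
          exact hP _ (hf.1 i))
      have h2 : List.Perm (List.ofFn f0) n.primeFactorsList :=
        Nat.primeFactorsList_unique (by rw [List.prod_ofFn]; exact h0.2) (by
          intro p hp
          obtain ⟨i, rfl⟩ := (List.mem_ofFn' f0 p).1 hp
          exact hP _ (h0.1 i))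
      exact h1.trans h2.symm
    calc _ ≤ (List.ofFn f0).permutations.toFinset.card := by
          refine Finset.card_le_card_of_injOn (fun f => List.ofFn f) ?_ ?_
          · intro f hf
            rw [Finset.mem_coe, List.mem_toFinset]
            exact hperm f hf
          · intro f _ g _ h
            exact List.ofFn_injective h
      _ ≤ (List.ofFn f0).permutations.length := List.toFinset_card_le _
      _ = k.factorial := by rw [List.length_permutations, List.length_ofFn]

lemma pow_sum_eq (P : Finset ℕ) (hP : ∀ p ∈ P, p ≠ 0) (k N : ℕ) (g : ℕ → ℂ) (g1 : g 1 = 1)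
    (gm : ∀ a b : ℕ, a ≠ 0 → b ≠ 0 → g (a * b) = g a * g b)
    (hN : ∀ f : Fin k → ℕ, (∀ i, f i ∈ P) → ∏ i, f i < N) :
    (∑ p ∈ P, g p) ^ k = ∑ n ∈ range N, (rep P k n : ℂ) * g n := by
  classical
  have hprod : ∀ (s : Finset (Fin k)) (f : Fin k → ℕ), (∀ i, f i ∈ P) →
      (∏ i ∈ s, f i ≠ 0 ∧ g (∏ i ∈ s, f i) = ∏ i ∈ s, g (f i)) := by
    intro s f hf
    induction s using Finset.induction_on with
    | empty => simpa using g1
    | insert i s hi ih =>
      rw [Finset.prod_insert hi, Finset.prod_insert hi, gm _ _ (hP _ (hf i)) ih.1, ih.2]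
      exact ⟨mul_ne_zero (hP _ (hf i)) ih.1, rfl⟩
  calc (∑ p ∈ P, g p) ^ k = ∏ _i : Fin k, ∑ p ∈ P, g p := by
        rw [Finset.prod_const, Finset.card_univ, Fintype.card_fin]
    _ = ∑ f ∈ Fintype.piFinset (fun _ : Fin k => P), ∏ i, g (f i) := by
        rw [Finset.prod_univ_sum]
    _ = ∑ f ∈ Fintype.piFinset (fun _ : Fin k => P), g (∏ i, f i) := by
        refine Finset.sum_congr rfl fun f hf => ?_
        rw [Fintype.mem_piFinset] at hf
        exact (hprod univ f hf).2.symm
    _ = ∑ n ∈ range N, ∑ f ∈ (Fintype.piFinset (fun _ : Fin k => P)).filter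
          (fun f => ∏ i, f i = n), g (∏ i, f i) := by
        refine (Finset.sum_fiberwise_of_maps_to (fun f hf => ?_) _).symm
        rw [Fintype.mem_piFinset] at hf
        exact Finset.mem_range.2 (hN f hf)
    _ = _ := by
        refine Finset.sum_congr rfl fun n _ => ?_
        rw [Finset.sum_congr rfl fun f hf => by rw [(Finset.mem_filter.1 hf).2],
          Finset.sum_const, nsmul_eq_mul]
        rfl

lemma sum_rep_sq (P : Finset ℕ) (hP : ∀ p ∈ P, p.Prime) (k N : ℕ) :
    ∑ n ∈ range N, ‖((rep P k n : ℕ) : ℂ)‖ ^ 2 ≤ (k.factorial : ℝ) * (P.card : ℝ) ^ k := by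
  classical
  have h1 : ∑ n ∈ range N, rep P k n ≤ P.card ^ k := by
    calc ∑ n ∈ range N, rep P k n
        = ((range N).biUnion fun n => (Fintype.piFinset fun _ : Fin k => P).filter
            fun f => ∏ i, f i = n).card := by
          rw [Finset.card_biUnion]
          · rfl
          · intro n _ m _ hnm
            rw [Function.onFun, Finset.disjoint_left]
            intro f hf hf'
            exact hnm ((Finset.mem_filter.1 hf).2.symm.trans (Finset.mem_filter.1 hf').2)
      _ ≤ (Fintype.piFinset fun _ : Fin k => P).card := by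
          refine Finset.card_le_card ?_
          intro f hf
          obtain ⟨n, _, hn⟩ := Finset.mem_biUnion.1 hf
          exact (Finset.mem_filter.1 hn).1
      _ = P.card ^ k := by
          rw [Fintype.card_piFinset, Finset.prod_const, Finset.card_univ, Fintype.card_fin]
  calc ∑ n ∈ range N, ‖((rep P k n : ℕ) : ℂ)‖ ^ 2
      ≤ ∑ n ∈ range N, (k.factorial : ℝ) * (rep P k n : ℝ) := by
        refine Finset.sum_le_sum fun n _ => ?_
        rw [Complex.norm_natCast, sq]
        have h2 : (rep P k n : ℝ) ≤ (k.factorial : ℝ) := by exact_mod_cast rep_le P hP k n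
        exact mul_le_mul_of_nonneg_right h2 (Nat.cast_nonneg _)
    _ = (k.factorial : ℝ) * ((∑ n ∈ range N, rep P k n : ℕ) : ℝ) := by
        rw [← Finset.mul_sum]
        push_cast
        rfl
    _ ≤ (k.factorial : ℝ) * (P.card : ℝ) ^ k := by
        refine mul_le_mul_of_nonneg_left ?_ (Nat.cast_nonneg _)
        exact_mod_cast h1

end Pool.Agent.H29.DF
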