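import Pool.Agent.H29.DF.EXA

/-!
# Exceptional discriminants, part 2: the counting inequality
-/

set_option autoImplicit false

open Finset Real

namespace Pool.Agent.H29.DF

open Pool.Agent.Ratios (Fam chi8)

/-- the odd primes up to `z` -/
def PO (z : ℕ) : Finset ℕ := (Icc 3 z).filter Nat.Prime

/-- the odd primes up to `z` which are inert -/
def bad (s : ℤ) (z : ℕ) : Finset ℕ := (PO z).filter fun p => jacobiSym s p = -1

lemma mem_PO {z p : ℕ} (h : p ∈ PO z) : 3 ≤ p ∧ p ≤ z ∧ p.Prime := by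
  rw [PO, Finset.mem_filter, Finset.mem_Icc] at h
  exact ⟨h.1.1, h.1.2, h.2⟩

lemma PO_odd {z p : ℕ} (h : p ∈ PO z) : Odd p :=
  (mem_PO h).2.2.odd_of_ne_two (by have := (mem_PO h).1; omega)

lemma card_dvd (m : ℕ) (hm : m ≠ 0) (z : ℕ) :
    (((PO z).filter fun p => p ∣ m).card : ℝ) ≤ Real.log m / Real.log 2 := by
  have h1 : 2 ^ ((PO z).filter fun p => p ∣ m).card ≤ m := by
    calc 2 ^ ((PO z).filter fun p => p ∣ m).card
        ≤ ∏ p ∈ (PO z).filter (fun p => p ∣ m), p :=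
          Finset.pow_card_le_prod _ _ _ (fun p hp => by
            have := (mem_PO (Finset.mem_filter.1 hp).1).1
            omega)
      _ ≤ m := by
          refine Nat.le_of_dvd (Nat.pos_of_ne_zero hm) ?_
          refine dvd_trans (Finset.prod_dvd_prod_of_subset _ m.primeFactors _ ?_)
            (Nat.prod_primeFactors_dvd m)
          intro p hp
          rw [Finset.mem_filter] at hp
          exact Nat.mem_primeFactors.2 ⟨(mem_PO hp.1).2.2, hp.2, hm⟩
  have hl2 : 0 < Real.log 2 := Real.log_pos (by norm_num)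
  rw [le_div_iff₀ hl2, ← Real.log_pow]
  refine Real.log_le_log (by positivity) ?_
  exact_mod_cast h1

lemma jac_cases (s : ℤ) (p : ℕ) (hp : p.Prime) :
    jacobiSym s p = 1 ∨ jacobiSym s p = -1 ∨ (jacobiSym s p = 0 ∧ p ∣ s.natAbs) := by
  rcases jacobiSym.trichotomy s p with h | h | h
  · refine Or.inr (Or.inr ⟨h, ?_⟩)
    have h0 : NeZero p := ⟨hp.ne_zero⟩
    rw [jacobiSym.eq_zero_iff_not_coprime] at h
    have h2 : Int.gcd s p = Nat.gcd s.natAbs p := by
      rw [Int.gcd_def, Int.natAbs_natCast]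
    rw [h2] at h
    by_contra h3
    exact h (((Nat.Prime.coprime_iff_not_dvd hp).2 h3).symm)
  · exact Or.inl h
  · exact Or.inr (Or.inl h)

/-- the sum over the primes is large if there are few inert primes -/
lemma sum_ge (s : ℤ) (hs : s ≠ 0) (z : ℕ) :
    ((PO z).card : ℝ) - 2 * ((bad s z).card : ℝ) - Real.log s.natAbs / Real.log 2 ≤
      ∑ p ∈ PO z, ((jacobiSym s p : ℤ) : ℝ) := by
  have h1 : ∀ p ∈ PO z, (1 : ℝ) - 2 * (if jacobiSym s p = -1 then 1 else 0) -
      (if p ∣ s.natAbs then 1 else 0) ≤ ((jacobiSym s p : ℤ) : ℝ) := by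
    intro p hp
    rcases jac_cases s p (mem_PO hp).2.2 with h | h | ⟨h, h'⟩
    · rw [h, if_neg (by norm_num)]
      have : (0 : ℝ) ≤ (if p ∣ s.natAbs then 1 else 0) := by split_ifs <;> norm_num
      push_cast
      linarith
    · rw [h, if_pos rfl]
      have : (0 : ℝ) ≤ (if p ∣ s.natAbs then 1 else 0) := by split_ifs <;> norm_num
      push_cast
      linarith
    · rw [h, if_neg (by norm_num), if_pos h']
      push_cast
      linarith
  have h2 := Finset.sum_le_sum h1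
  have h3 : ∑ p ∈ PO z, ((1 : ℝ) - 2 * (if jacobiSym s p = -1 then 1 else 0) -
      (if p ∣ s.natAbs then 1 else 0)) = ((PO z).card : ℝ) - 2 * ((bad s z).card : ℝ) -
        (((PO z).filter fun p => p ∣ s.natAbs).card : ℝ) := by
    rw [Finset.sum_sub_distrib, Finset.sum_sub_distrib, ← Finset.mul_sum, Finset.sum_boole,
      Finset.sum_boole, Finset.sum_const, nsmul_eq_mul, mul_one]
    rfl
  rw [h3] at h2
  have h4 := card_dvd s.natAbs (Int.natAbs_ne_zero.2 hs) z
  linarith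

/-- `(2 / n)` as a multiplicative function -/
noncomputable def g2 (b : Bool) (n : ℕ) : ℂ := if b then ((jacobiSym 2 n : ℤ) : ℂ) else 1

lemma g2_one (b : Bool) : g2 b 1 = 1 := by
  unfold g2
  cases b <;> simp

lemma g2_mul (b : Bool) (m n : ℕ) (hm : m ≠ 0) (hn : n ≠ 0) : g2 b (m * n) = g2 b m * g2 b n := by
  unfold g2
  cases b
  · simp
  · simp only [if_true]
    rw [jacobiSym.mul_right' 2 hm hn]
    push_cast
    rfl

lemma g2_norm (b : Bool) (n : ℕ) : ‖g2 b n‖ ≤ 1 := by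
  unfold g2
  cases b
  · simp
  · rcases jacobiSym.trichotomy 2 n with h | h | h <;> simp [h]

/-- the squarefree integer with odd part `d`: `d` itself (`b = true`) or `2 d` (`b = false`) -/
def sq (b : Bool) (d : ℤ) : ℤ := if b then d else 2 * d

lemma g2_chi (b : Bool) (d : ℤ) (p : ℕ) (hp : p.Prime) (ho : Odd p) :
    g2 b p * chi8 d (p : ZMod (8 * d.natAbs)) = ((jacobiSym (sq b d) p : ℤ) : ℂ) := by
  by_cases hc : p.Coprime (8 * d.natAbs)
  · rw [Pool.Agent.Ratios.chi8_apply_nat d p hc, Pool.Agent.Ratios.jacobiSym_eight_mul d p ho]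
    cases b
    · simp [g2, sq]
    · unfold g2 sq
      simp only [if_true]
      have h2 : jacobiSym 2 p * jacobiSym (2 * d) p = jacobiSym d p := by
        rw [jacobiSym.mul_left, ← mul_assoc, ← jacobiSym.mul_left]
        have : jacobiSym (2 * 2) p = 1 := by
          have hg : Int.gcd 2 (p : ℤ) = 1 := by
            rw [Int.gcd_eq_natAbs]
            simpa using (Nat.coprime_two_left.mpr ho)
          have h4 := jacobiSym.sq_one' hg
          rw [show (2 * 2 : ℤ) = 2 ^ 2 by norm_num]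
          exact h4
        rw [this, one_mul]
      rw [← h2]
      push_cast
      rfl
  · rw [Pool.Agent.Ratios.chi8_apply_not_coprime d p hc, mul_zero]
    have h8 : p.Coprime 8 := by
      rw [show (8 : ℕ) = 2 ^ 3 by norm_num]
      exact Nat.Coprime.pow_right _ (Nat.coprime_two_right.2 ho)
    have h1 : p ∣ d.natAbs := by
      by_contra h
      exact hc (Nat.Coprime.mul_right h8 ((Nat.Prime.coprime_iff_not_dvd hp).2 h))
    have h0 : jacobiSym (sq b d) p = 0 := by
      have hz : NeZero p := ⟨hp.ne_zero⟩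
      rw [jacobiSym.eq_zero_iff_not_coprime]
      intro hg
      have h3 : (p : ℤ) ∣ sq b d := by
        unfold sq
        have h5 : (p : ℤ) ∣ d := Int.natCast_dvd.2 h1
        cases b
        · exact Dvd.dvd.mul_left h5 2
        · exact h5
      have h4 : p ∣ Int.gcd (sq b d) p := Int.dvd_gcd h3 (dvd_refl _)
      rw [hg] at h4
      exact hp.one_lt.ne' (Nat.dvd_one.1 h4)
    rw [h0]
    simp

/-- The counting inequality. -/
theorem count (b : Bool) (F : Finset Fam) (Q z k : ℕ) (W : ℝ) (hW : 0 ≤ W)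
    (hF : ∀ d ∈ F, 8 * (d : ℤ).natAbs ≤ Q)
    (hb : ∀ d ∈ F, W ≤ ∑ p ∈ PO z, ((jacobiSym (sq b d) p : ℤ) : ℝ)) :
    (F.card : ℝ) * W ^ (2 * k) ≤
      ((Q : ℝ) ^ 2 + 4 * π * ((z ^ k + 1 : ℕ) : ℝ)) * (k.factorial * ((PO z).card : ℝ) ^ k) := by
  have hP : ∀ p ∈ PO z, p.Prime := fun p hp => (mem_PO hp).2.2
  have key : ∀ d ∈ F, W ^ (2 * k) ≤ ‖∑ n ∈ range (z ^ k + 1),
      ((rep (PO z) k n : ℂ) * g2 b n) * chi8 (d : ℤ) (n : ZMod (8 * (d : ℤ).natAbs))‖ ^ 2 := by
    intro d hd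
    have h1 := pow_sum_eq (PO z) (fun p hp => (hP p hp).ne_zero) k (z ^ k + 1)
      (fun n => g2 b n * chi8 (d : ℤ) (n : ZMod (8 * (d : ℤ).natAbs)))
      (by simp [g2_one]) (by
        intro m n hm hn
        rw [g2_mul b m n hm hn, Nat.cast_mul, map_mul]
        ring) (by
        intro f hf
        refine Nat.lt_succ_of_le ?_
        calc ∏ i, f i ≤ ∏ _i : Fin k, z := Finset.prod_le_prod' fun i _ => (mem_PO (hf i)).2.1
          _ = z ^ k := by rw [Finset.prod_const, Finset.card_univ, Fintype.card_fin])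
    have h2 : ∑ n ∈ range (z ^ k + 1), (rep (PO z) k n : ℂ) * (g2 b n *
        chi8 (d : ℤ) (n : ZMod (8 * (d : ℤ).natAbs))) = ∑ n ∈ range (z ^ k + 1),
      ((rep (PO z) k n : ℂ) * g2 b n) * chi8 (d : ℤ) (n : ZMod (8 * (d : ℤ).natAbs)) :=
      Finset.sum_congr rfl fun n _ => by ring
    rw [← h2, ← h1]
    have h3 : ∑ p ∈ PO z, g2 b p * chi8 (d : ℤ) (p : ZMod (8 * (d : ℤ).natAbs)) =
        ((∑ p ∈ PO z, ((jacobiSym (sq b d) p : ℤ) : ℝ) : ℝ) : ℂ) := by
      push_cast
      refine Finset.sum_congr rfl fun p hp => ?_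
      exact_mod_cast g2_chi b d p (hP p hp) (PO_odd hp)
    rw [h3, norm_pow, Complex.norm_real, ← pow_mul, mul_comm k 2]
    refine pow_le_pow_left₀ hW ((hb d hd).trans (le_abs_self _)) _
  have h4 := ls8 F Q (z ^ k + 1) (fun n => (rep (PO z) k n : ℂ) * g2 b n) hF
  have h5 : ∑ n ∈ range (z ^ k + 1), ‖(rep (PO z) k n : ℂ) * g2 b n‖ ^ 2 ≤
      k.factorial * ((PO z).card : ℝ) ^ k := by
    refine (Finset.sum_le_sum fun n _ => ?_).trans (sum_rep_sq (PO z) hP k (z ^ k + 1))
    rw [norm_mul]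
    refine pow_le_pow_left₀ (by positivity) ?_ 2
    calc ‖((rep (PO z) k n : ℕ) : ℂ)‖ * ‖g2 b n‖ ≤ ‖((rep (PO z) k n : ℕ) : ℂ)‖ * 1 :=
          mul_le_mul_of_nonneg_left (g2_norm b n) (norm_nonneg _)
      _ = _ := mul_one _
  calc (F.card : ℝ) * W ^ (2 * k) = ∑ d ∈ F, W ^ (2 * k) := by
        rw [Finset.sum_const, nsmul_eq_mul]
    _ ≤ _ := Finset.sum_le_sum key
    _ ≤ _ := h4
    _ ≤ _ := by
      refine mul_le_mul_of_nonneg_left h5 ?_
      have := Real.pi_pos
      positivity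

end Pool.Agent.H29.DF
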