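import Pool.Agent.H29.DF.EXB

/-!
# Exceptional discriminants, part 3: there are few integers, independent modulo squares, with few
small inert primes
-/

set_option autoImplicit false

open Finset Real Filter Topology

namespace Pool.Agent.H29.DF

open Pool.Agent.Ratios (Fam chi8)

lemma card_PO (z : ℕ) : (Nat.primeCounting z : ℝ) ≤ ((PO z).card : ℝ) + 1 := by
  have h1 : Nat.primeCounting z = ((range (z + 1)).filter Nat.Prime).card := by
    rw [Nat.primeCounting, Nat.primeCounting', Nat.count_eq_card_filter_range]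
  have h2 : (range (z + 1)).filter Nat.Prime ⊆ insert 2 (PO z) := by
    intro p hp
    rw [Finset.mem_filter, Finset.mem_range] at hp
    rw [Finset.mem_insert, PO, Finset.mem_filter, Finset.mem_Icc]
    by_cases h : p = 2
    · exact Or.inl h
    · refine Or.inr ⟨⟨?_, by omega⟩, hp.2⟩
      have := hp.2.two_le
      omega
  have h3 := Finset.card_le_card h2
  have h4 := Finset.card_insert_le 2 (PO z)
  rw [← h1] at h3
  exact_mod_cast h3.trans h4

lemma PO_large (x : ℝ) (hx : 2000 ≤ x) : x / (2 * Real.log x) ≤ ((PO ⌊x⌋₊).card : ℝ) := by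
  have hx0 : 0 < x := by linarith
  have hlog : 0 < Real.log x := Real.log_pos (by linarith)
  have h1 := Chebyshev.pi_ge' (x := x) (by linarith)
  have h2 := card_PO ⌊x⌋₊
  have hs : (40 : ℝ) ≤ √(x + 2) := by
    refine Real.le_sqrt_of_sq_le ?_
    nlinarith
  have hsq : √(x + 2) ^ 2 = x + 2 := Real.sq_sqrt (by linarith)
  have h3 : Real.log (x + 2) ≤ 0.05 * x := by
    have h4 : Real.log (x + 2) = 2 * Real.log (√(x + 2)) := by
      rw [Real.log_sqrt (by linarith)]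
      ring
    have h5 := Real.log_le_sub_one_of_pos (show 0 < √(x + 2) by linarith)
    rw [h4]
    nlinarith
  have h6 : Real.log x ≤ 0.1 * x := by
    have : Real.log x ≤ Real.log (x + 2) := Real.log_le_log hx0 (by linarith)
    linarith
  have hl2 := Real.log_two_gt_d9
  have h7 : 0.6 * x / Real.log x ≤ ((x - 1) * Real.log 2 - Real.log (x + 2)) / Real.log x := by
    refine div_le_div_of_nonneg_right ?_ hlog.le
    nlinarith
  have h8 : 1 ≤ 0.1 * x / Real.log x := by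
    rw [le_div_iff₀ hlog]
    linarith
  have h9 : x / (2 * Real.log x) = 0.6 * x / Real.log x - 0.1 * x / Real.log x := by
    field_simp
    ring
  rw [h9]
  linarith

/-- for large `X` there are many more primes up to `X ^ ε` than inert and ramified ones -/
lemma eventually_good (ε K : ℝ) (hε : 0 < ε) (B : ℕ) : ∀ᶠ X : ℝ in atTop,
    1 ≤ Real.log X ∧ X ^ ε / (2 * (ε * Real.log X)) ≤ ((PO ⌊X ^ ε⌋₊).card : ℝ) ∧
    2 * (K * (1 + Real.log X) ^ B) + Real.log X / Real.log 2 ≤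
      ((PO ⌊X ^ ε⌋₊).card : ℝ) / 2 := by
  have hl2 : 0 < Real.log 2 := Real.log_pos (by norm_num)
  obtain ⟨c, hc⟩ : ∃ c : ℝ, c = 4 * ε * (2 * |K| * 2 ^ B + 1 / Real.log 2) := ⟨_, rfl⟩
  have hc0 : 0 < c := by
    rw [hc]
    positivity
  have h1 := (isLittleO_log_rpow_rpow_atTop ((B + 2 : ℕ) : ℝ) hε).bound (inv_pos.2 hc0)
  have h2 : ∀ᶠ X : ℝ in atTop, 1 ≤ Real.log X :=
    Real.tendsto_log_atTop.eventually_ge_atTop 1
  have h3 : ∀ᶠ X : ℝ in atTop, 2000 ≤ X ^ ε := (tendsto_rpow_atTop hε).eventually_ge_atTop 2000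
  filter_upwards [h1, h2, h3, eventually_gt_atTop 0] with X h1 h2 h3 h0
  have hL0 : 0 < Real.log X := by linarith
  have h4 := PO_large (X ^ ε) h3
  rw [Real.log_rpow h0] at h4
  refine ⟨h2, h4, ?_⟩
  rw [Real.norm_of_nonneg (Real.rpow_nonneg hL0.le _), Real.norm_of_nonneg (by positivity),
    Real.rpow_natCast] at h1
  have h5 : c * Real.log X ^ (B + 2) ≤ X ^ ε := by
    rw [inv_mul_eq_div, le_div_iff₀ hc0] at h1
    linarith
  obtain ⟨L, hL⟩ : ∃ L : ℝ, L = Real.log X := ⟨_, rfl⟩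
  rw [← hL] at h2 h4 h5 hL0 ⊢
  have h6 : 2 * (K * (1 + L) ^ B) + L / Real.log 2 ≤
      (2 * |K| * 2 ^ B + 1 / Real.log 2) * L ^ (B + 1) := by
    have e1 : (1 + L) ^ B ≤ 2 ^ B * L ^ B := by
      rw [← mul_pow]
      exact pow_le_pow_left₀ (by linarith) (by linarith) B
    have e2 : L ^ B ≤ L ^ (B + 1) := pow_le_pow_right₀ h2 (by omega)
    have e3 : L ≤ L ^ (B + 1) := by
      calc L = L ^ 1 := (pow_one L).symm
        _ ≤ L ^ (B + 1) := pow_le_pow_right₀ h2 (by omega)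
    have e4 : K * (1 + L) ^ B ≤ |K| * (2 ^ B * L ^ (B + 1)) := by
      calc K * (1 + L) ^ B ≤ |K| * (1 + L) ^ B :=
            mul_le_mul_of_nonneg_right (le_abs_self K) (by positivity)
        _ ≤ |K| * (2 ^ B * L ^ (B + 1)) := by
            refine mul_le_mul_of_nonneg_left (e1.trans ?_) (abs_nonneg K)
            exact mul_le_mul_of_nonneg_left e2 (by positivity)
    have e5 : L / Real.log 2 ≤ 1 / Real.log 2 * L ^ (B + 1) := by
      rw [div_mul_eq_mul_div, one_mul]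
      exact div_le_div_of_nonneg_right e3 hl2.le
    calc _ ≤ 2 * (|K| * (2 ^ B * L ^ (B + 1))) + 1 / Real.log 2 * L ^ (B + 1) := by linarith
      _ = _ := by ring
  refine h6.trans ?_
  have h7 : (2 * |K| * 2 ^ B + 1 / Real.log 2) * L ^ (B + 1) ≤ X ^ ε / (2 * (ε * L)) / 2 := by
    rw [div_div, le_div_iff₀ (by positivity)]
    calc (2 * |K| * 2 ^ B + 1 / Real.log 2) * L ^ (B + 1) * (2 * (ε * L) * 2)
        = c * L ^ (B + 2) := by
          rw [hc]
          ring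
      _ ≤ X ^ ε := h5
  linarith

/-- The bound for one of the two classes (odd and even). -/
lemma class_bound (b : Bool) (ε X : ℝ) (hε : 0 < ε) (hX : 2 ≤ X) (k : ℕ) (hk : 2 ≤ ε * k)
    (F : Finset Fam) (hF : ∀ d ∈ F, ((d : ℤ).natAbs : ℝ) ≤ X) (hL : 1 ≤ Real.log X)
    (hP : X ^ ε / (2 * (ε * Real.log X)) ≤ ((PO ⌊X ^ ε⌋₊).card : ℝ))
    (hb : ∀ d ∈ F, ((PO ⌊X ^ ε⌋₊).card : ℝ) / 2 ≤
      ∑ p ∈ PO ⌊X ^ ε⌋₊, ((jacobiSym (sq b d) p : ℤ) : ℝ)) :
    (F.card : ℝ) ≤ 100 * (8 * ε) ^ k * k.factorial * Real.log X ^ k := by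
  have hX0 : 0 < X := by linarith
  have hXe : 0 < X ^ ε := Real.rpow_pos_of_pos hX0 ε
  have h1 := count b F (8 * ⌊X⌋₊) ⌊X ^ ε⌋₊ k (((PO ⌊X ^ ε⌋₊).card : ℝ) / 2) (by positivity)
    (fun d hd => Nat.mul_le_mul_left 8 (Nat.le_floor (hF d hd))) hb
  obtain ⟨P, hPd⟩ : ∃ P : ℝ, P = ((PO ⌊X ^ ε⌋₊).card : ℝ) := ⟨_, rfl⟩
  obtain ⟨Y, hY⟩ : ∃ Y : ℝ, Y = X ^ ε := ⟨_, rfl⟩
  obtain ⟨L, hLd⟩ : ∃ L : ℝ, L = Real.log X := ⟨_, rfl⟩
  rw [← hPd] at h1 hP
  rw [← hLd] at hP hL ⊢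
  have hL0 : 0 < L := by linarith
  have hP0 : 0 < P := lt_of_lt_of_le (by positivity) hP
  have hYk : X ^ 2 ≤ Y ^ k := by
    rw [hY, ← Real.rpow_natCast (X ^ ε) k, ← Real.rpow_mul hX0.le,
      show X ^ 2 = X ^ (2 : ℝ) by exact_mod_cast (Real.rpow_natCast X 2).symm]
    exact Real.rpow_le_rpow_of_exponent_le (by linarith) hk
  have hY1 : 1 ≤ Y ^ k := le_trans (by nlinarith) hYk
  have h2 : (((8 * ⌊X⌋₊ : ℕ) : ℝ) ^ 2 + 4 * π * ((⌊X ^ ε⌋₊ ^ k + 1 : ℕ) : ℝ)) ≤ 100 * Y ^ k := by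
    have e1 : ((8 * ⌊X⌋₊ : ℕ) : ℝ) ≤ 8 * X := by
      push_cast
      have := Nat.floor_le hX0.le
      linarith
    have e2 : ((8 * ⌊X⌋₊ : ℕ) : ℝ) ^ 2 ≤ 64 * X ^ 2 := by
      calc ((8 * ⌊X⌋₊ : ℕ) : ℝ) ^ 2 ≤ (8 * X) ^ 2 := pow_le_pow_left₀ (Nat.cast_nonneg _) e1 2
        _ = 64 * X ^ 2 := by ring
    have e3 : ((⌊X ^ ε⌋₊ ^ k + 1 : ℕ) : ℝ) ≤ 2 * Y ^ k := by
      push_cast
      have : (⌊X ^ ε⌋₊ : ℝ) ^ k ≤ Y ^ k := by
        rw [hY]
        exact pow_le_pow_left₀ (Nat.cast_nonneg _) (Nat.floor_le hXe.le) k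
      linarith
    have e4 : 4 * π * ((⌊X ^ ε⌋₊ ^ k + 1 : ℕ) : ℝ) ≤ 4 * 4 * (2 * Y ^ k) := by
      have := Real.pi_le_four
      have := Real.pi_pos
      gcongr
    linarith
  have h3 : (F.card : ℝ) * (P / 2) ^ (2 * k) ≤ 100 * Y ^ k * (k.factorial * P ^ k) :=
    h1.trans (mul_le_mul_of_nonneg_right h2 (by positivity))
  have h4 : (P / 2) ^ (2 * k) = P ^ k * (P ^ k / 4 ^ k) := by
    rw [div_pow, pow_mul 2 2 k, mul_comm 2 k, pow_mul P k 2]
    norm_num
    ring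
  rw [h4] at h3
  have hPk : 0 < P ^ k := by positivity
  have h5 : (F.card : ℝ) * (P ^ k / 4 ^ k) ≤ 100 * Y ^ k * k.factorial := by
    refine le_of_mul_le_mul_left ?_ hPk
    calc P ^ k * ((F.card : ℝ) * (P ^ k / 4 ^ k)) = (F.card : ℝ) * (P ^ k * (P ^ k / 4 ^ k)) := by
          ring
      _ ≤ 100 * Y ^ k * (k.factorial * P ^ k) := h3
      _ = P ^ k * (100 * Y ^ k * k.factorial) := by ring
  have h6 : Y ^ k ≤ (2 * (ε * L)) ^ k * P ^ k := by
    rw [← mul_pow]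
    rw [← hY] at hP
    have hYn : 0 ≤ Y := by rw [hY]; exact hXe.le
    refine pow_le_pow_left₀ hYn ?_ k
    rw [div_le_iff₀ (by positivity)] at hP
    linarith
  have h7 : (F.card : ℝ) * (P ^ k / 4 ^ k) ≤ 100 * ((2 * (ε * L)) ^ k * P ^ k) * k.factorial :=
    h5.trans (by gcongr)
  refine le_of_mul_le_mul_right ?_ (show 0 < P ^ k / 4 ^ k by positivity)
  refine h7.trans (le_of_eq ?_)
  have h8 : (8 * ε) ^ k * L ^ k = 4 ^ k * (2 * (ε * L)) ^ k := by
    rw [← mul_pow, ← mul_pow]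
    ring
  calc 100 * ((2 * (ε * L)) ^ k * P ^ k) * k.factorial
      = 100 * (4 ^ k * (2 * (ε * L)) ^ k) * k.factorial * (P ^ k / 4 ^ k) := by
        field_simp
    _ = _ := by
        rw [← h8]
        ring

/-- Squarefree integers with few small inert primes. -/
theorem exs (ε K : ℝ) (hε : 0 < ε) (B : ℕ) : ∃ (C : ℝ) (k : ℕ), 0 ≤ C ∧ ∀ X : ℝ, 2 ≤ X →
    ∀ S : Finset ℤ, (∀ s ∈ S, Squarefree s ∧ (s.natAbs : ℝ) ≤ X ∧
      ((bad s ⌊X ^ ε⌋₊).card : ℝ) ≤ K * (1 + Real.log X) ^ B) →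
    (S.card : ℝ) ≤ C * Real.log X ^ k := by
  classical
  obtain ⟨X₀, hX₀⟩ := Filter.eventually_atTop.1 (eventually_good ε K hε B)
  obtain ⟨k, hk⟩ : ∃ k : ℕ, 2 ≤ ε * k := by
    obtain ⟨k, hk⟩ := exists_nat_ge (2 / ε)
    exact ⟨k, by rwa [div_le_iff₀ hε, mul_comm] at hk⟩
  have hl2 : 0 < Real.log 2 := Real.log_pos (by norm_num)
  refine ⟨200 * (8 * ε) ^ k * k.factorial + (2 * |X₀| + 3) / Real.log 2 ^ k, k, by positivity, ?_⟩
  intro X hX S hS
  have hX0 : 0 < X := by linarith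
  have hlX : Real.log 2 ≤ Real.log X := Real.log_le_log (by norm_num) hX
  have hlk : Real.log 2 ^ k ≤ Real.log X ^ k := pow_le_pow_left₀ hl2.le hlX k
  rcases le_or_gt X₀ X with hXX | hXX
  · obtain ⟨h1, h2, h3⟩ := hX₀ X hXX
    have hbad : ∀ s ∈ S, ((PO ⌊X ^ ε⌋₊).card : ℝ) / 2 ≤
        ∑ p ∈ PO ⌊X ^ ε⌋₊, ((jacobiSym s p : ℤ) : ℝ) := by
      intro s hs
      obtain ⟨a1, a2, a3⟩ := hS s hs
      have a4 := sum_ge s a1.ne_zero ⌊X ^ ε⌋₊
      have a5 : Real.log s.natAbs ≤ Real.log X := by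
        refine Real.log_le_log ?_ a2
        exact_mod_cast Int.natAbs_pos.2 a1.ne_zero
      have a6 : Real.log s.natAbs / Real.log 2 ≤ Real.log X / Real.log 2 :=
        div_le_div_of_nonneg_right a5 hl2.le
      linarith
    have hodd : (((S.filter fun s => Odd s).card : ℕ) : ℝ) ≤
        100 * (8 * ε) ^ k * k.factorial * Real.log X ^ k := by
      have e0 : ∀ s : {s // s ∈ S.filter fun s => Odd s}, Odd (s : ℤ) ∧ Squarefree (s : ℤ) :=
        fun s => ⟨(Finset.mem_filter.1 s.2).2, (hS _ (Finset.mem_filter.1 s.2).1).1⟩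
      obtain ⟨F, hF⟩ : ∃ F : Finset Fam, F = (S.filter fun s => Odd s).attach.image
        (fun s : {s // s ∈ S.filter fun s => Odd s} => (⟨(s : ℤ), e0 s⟩ : Fam)) := ⟨_, rfl⟩
      have e1 : F.card = (S.filter fun s => Odd s).card := by
        rw [hF, Finset.card_image_of_injective, Finset.card_attach]
        intro s t h
        exact Subtype.ext (congrArg (fun d : Fam => (d : ℤ)) h)
      have e2 : ∀ d ∈ F, (d : ℤ) ∈ S := by
        intro d hd
        rw [hF] at hd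
        obtain ⟨s, _, rfl⟩ := Finset.mem_image.1 hd
        exact (Finset.mem_filter.1 s.2).1
      rw [← e1]
      exact class_bound true ε X hε hX k hk F (fun d hd => (hS _ (e2 d hd)).2.1) h1 h2
        (fun d hd => hbad _ (e2 d hd))
    have heven : (((S.filter fun s => ¬ Odd s).card : ℕ) : ℝ) ≤
        100 * (8 * ε) ^ k * k.factorial * Real.log X ^ k := by
      have e00 : ∀ s : ℤ, s ∈ S.filter (fun s => ¬ Odd s) → s = 2 * (s / 2) := by
        intro s hs
        have := (Finset.mem_filter.1 hs).2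
        rw [Int.not_odd_iff_even] at this
        obtain ⟨r, hr⟩ := this
        omega
      have e0 : ∀ s : {s // s ∈ S.filter fun s => ¬ Odd s},
          Odd ((s : ℤ) / 2) ∧ Squarefree ((s : ℤ) / 2) := by
        intro s
        have a1 := e00 _ s.2
        have a2 := (hS _ (Finset.mem_filter.1 s.2).1).1
        rw [a1] at a2
        refine ⟨?_, Squarefree.of_mul_right a2⟩
        by_contra h
        rw [Int.not_odd_iff_even] at h
        obtain ⟨r, hr⟩ := h
        have a3 := a2 2 ⟨r, by rw [hr]; ring⟩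
        rw [Int.isUnit_iff] at a3
        omega
      obtain ⟨F, hF⟩ : ∃ F : Finset Fam, F = (S.filter fun s => ¬ Odd s).attach.image
        (fun s : {s // s ∈ S.filter fun s => ¬ Odd s} => (⟨(s : ℤ) / 2, e0 s⟩ : Fam)) := ⟨_, rfl⟩
      have e1 : F.card = (S.filter fun s => ¬ Odd s).card := by
        rw [hF, Finset.card_image_of_injective, Finset.card_attach]
        intro s t h
        have h' : (s : ℤ) / 2 = (t : ℤ) / 2 := congrArg (fun d : Fam => (d : ℤ)) h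
        have b1 := e00 _ s.2
        have b2 := e00 _ t.2
        exact Subtype.ext (by omega)
      have e2 : ∀ d ∈ F, 2 * (d : ℤ) ∈ S := by
        intro d hd
        rw [hF] at hd
        obtain ⟨s, _, rfl⟩ := Finset.mem_image.1 hd
        have := e00 _ s.2
        change 2 * ((s : ℤ) / 2) ∈ S
        rw [← this]
        exact (Finset.mem_filter.1 s.2).1
      rw [← e1]
      refine class_bound false ε X hε hX k hk F (fun d hd => ?_) h1 h2
        (fun d hd => hbad _ (e2 d hd))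
      refine le_trans ?_ (hS _ (e2 d hd)).2.1
      rw [Int.natAbs_mul]
      push_cast
      have : (0 : ℝ) ≤ |((d : ℤ) : ℝ)| := abs_nonneg _
      norm_num
      linarith
    have hsplit : S.card = (S.filter fun s => Odd s).card + (S.filter fun s => ¬ Odd s).card :=
      (Finset.card_filter_add_card_filter_not (fun s : ℤ => Odd s)).symm
    rw [hsplit]
    push_cast
    have hz : (0 : ℝ) ≤ (2 * |X₀| + 3) / Real.log 2 ^ k * Real.log X ^ k := by
      have : 0 ≤ Real.log X := by linarith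
      positivity
    nlinarith
  · have h1 : (S.card : ℝ) ≤ 2 * X + 1 := by
      have h2 : S ⊆ Finset.Icc (-(⌊X⌋₊ : ℤ)) (⌊X⌋₊ : ℤ) := by
        intro s hs
        have := Nat.le_floor (hS s hs).2.1
        rw [Finset.mem_Icc]
        omega
      have h3 := Finset.card_le_card h2
      rw [Int.card_Icc] at h3
      have h4 : S.card ≤ 2 * ⌊X⌋₊ + 1 := by omega
      have h5 : (S.card : ℝ) ≤ ((2 * ⌊X⌋₊ + 1 : ℕ) : ℝ) := by exact_mod_cast h4
      push_cast at h5
      have := Nat.floor_le hX0.le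
      linarith
    have h2 : 2 * X + 1 ≤ 2 * |X₀| + 3 := by
      have := le_abs_self X₀
      linarith
    calc (S.card : ℝ) ≤ 2 * |X₀| + 3 := h1.trans h2
      _ = (2 * |X₀| + 3) / Real.log 2 ^ k * Real.log 2 ^ k := by field_simp
      _ ≤ (2 * |X₀| + 3) / Real.log 2 ^ k * Real.log X ^ k :=
          mul_le_mul_of_nonneg_left hlk (by positivity)
      _ ≤ _ := by
          have : 0 ≤ Real.log X := hl2.le.trans hlX
          rw [add_mul]
          have h3 : 0 ≤ 200 * (8 * ε) ^ k * (k.factorial : ℝ) * Real.log X ^ k := by positivity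
          linarith

end Pool.Agent.H29.DF
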