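import Pool.Agent.H29.DF.EXC

/-!
# Exceptional discriminants, part 4: integers which are independent modulo squares

For every `ε > 0` there are only `O((log X) ^ k)` integers `D`, `|D| ≤ X`, pairwise different modulo
squares, for which fewer than `(log X) ^ B` odd primes `p ≤ X ^ ε` have `(D / p) = -1`.
-/

set_option autoImplicit false

open Finset Real Filter Topology

namespace Pool.Agent.H29.DF

lemma exists_kernel (D : ℤ) (hD : D ≠ 0) : ∃ (s t : ℤ), D = s * t ^ 2 ∧ Squarefree s := by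
  obtain ⟨a, b, hab, ha⟩ := Nat.sq_mul_squarefree D.natAbs
  rcases Int.natAbs_eq D with h | h
  · refine ⟨a, b, ?_, Int.squarefree_natCast.2 ha⟩
    rw [h, ← hab]
    push_cast
    ring
  · refine ⟨-a, b, ?_, ?_⟩
    · rw [h, ← hab]
      push_cast
      ring
    · have h1 : Squarefree (a : ℤ) := Int.squarefree_natCast.2 ha
      intro x hx
      exact h1 x ((dvd_neg).1 hx)

/-- Integers, pairwise different modulo squares, with few small inert primes. -/
theorem exd (ε K : ℝ) (hε : 0 < ε) (B : ℕ) : ∃ (C : ℝ) (k : ℕ), 0 ≤ C ∧ ∀ X : ℝ, 2 ≤ X →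
    ∀ S : Finset ℤ, (∀ D ∈ S, D ≠ 0 ∧ (D.natAbs : ℝ) ≤ X) →
    (∀ D ∈ S, ∀ D' ∈ S, D ≠ D' → ¬ IsSquare (D * D')) →
    (∀ D ∈ S, ((((Icc 3 ⌊X ^ ε⌋₊).filter fun p => p.Prime ∧ jacobiSym D p = -1).card : ℕ) : ℝ) ≤
      K * (1 + Real.log X) ^ B) →
    (S.card : ℝ) ≤ C * Real.log X ^ k := by
  classical
  obtain ⟨C, k, hC, h⟩ := exs ε (|K| + 2) hε (B + 1)
  refine ⟨C, k, hC, fun X hX S h1 h2 h3 => ?_⟩
  have hX0 : 0 < X := by linarith
  have hL : Real.log 2 ≤ Real.log X := Real.log_le_log (by norm_num) hX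
  have hl2 : 0 < Real.log 2 := Real.log_pos (by norm_num)
  have hl2' := Real.log_two_gt_d9
  have h4 : ∀ D : ℤ, ∃ s t : ℤ, D ≠ 0 → (D = s * t ^ 2 ∧ Squarefree s) := by
    intro D
    by_cases hD : D = 0
    · exact ⟨0, 0, fun h => absurd hD h⟩
    · obtain ⟨s, t, h, h'⟩ := exists_kernel D hD
      exact ⟨s, t, fun _ => ⟨h, h'⟩⟩
  choose s t hst using h4
  have hinj : Set.InjOn s S := by
    intro D hD D' hD' he
    by_contra hne
    apply h2 D hD D' hD' hne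
    refine ⟨s D * t D * t D', ?_⟩
    have e1 := (hst D (h1 D hD).1).1
    have e2 := (hst D' (h1 D' hD').1).1
    calc D * D' = (s D * t D ^ 2) * (s D' * t D' ^ 2) := by rw [← e1, ← e2]
      _ = (s D * t D ^ 2) * (s D * t D' ^ 2) := by rw [he]
      _ = _ := by ring
  rw [← Finset.card_image_of_injOn hinj]
  refine h X hX _ ?_
  intro a ha
  obtain ⟨D, hD, rfl⟩ := Finset.mem_image.1 ha
  obtain ⟨e1, e2⟩ := hst D (h1 D hD).1
  have ht0 : t D ≠ 0 := by
    intro h0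
    rw [h0] at e1
    exact (h1 D hD).1 (by rw [e1]; ring)
  have hnat : D.natAbs = (s D).natAbs * (t D).natAbs ^ 2 := by
    conv_lhs => rw [e1]
    rw [Int.natAbs_mul, Int.natAbs_pow]
  have htp : 1 ≤ (t D).natAbs ^ 2 := Nat.one_le_pow _ _ (Int.natAbs_pos.2 ht0)
  refine ⟨e2, ?_, ?_⟩
  · refine le_trans ?_ (h1 D hD).2
    have : (s D).natAbs ≤ D.natAbs := by
      rw [hnat]
      exact Nat.le_mul_of_pos_right _ htp
    exact_mod_cast this
  · have hsub : bad (s D) ⌊X ^ ε⌋₊ ⊆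
        ((Icc 3 ⌊X ^ ε⌋₊).filter fun p => p.Prime ∧ jacobiSym D p = -1) ∪
          ((PO ⌊X ^ ε⌋₊).filter fun p => p ∣ D.natAbs) := by
      intro p hp
      rw [bad, Finset.mem_filter] at hp
      rw [Finset.mem_union, Finset.mem_filter, Finset.mem_filter]
      obtain ⟨q1, q2, q3⟩ := mem_PO hp.1
      by_cases hd : p ∣ (t D).natAbs
      · refine Or.inr ⟨hp.1, ?_⟩
        rw [hnat]
        exact Dvd.dvd.mul_left (hd.trans (dvd_pow_self _ two_ne_zero)) _
      · refine Or.inl ⟨Finset.mem_Icc.2 ⟨q1, q2⟩, q3, ?_⟩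
        have hg : Int.gcd (t D) p = 1 := by
          rw [Int.gcd_def, Int.natAbs_natCast]
          exact ((Nat.Prime.coprime_iff_not_dvd q3).2 hd).symm
        have h7 : jacobiSym (s D * t D ^ 2) p = -1 := by
          rw [jacobiSym.mul_left, jacobiSym.sq_one' hg, mul_one]
          exact hp.2
        rwa [← e1] at h7
    have h5 : ((bad (s D) ⌊X ^ ε⌋₊).card : ℝ) ≤ K * (1 + Real.log X) ^ B +
        Real.log X / Real.log 2 := by
      have a1 : ((bad (s D) ⌊X ^ ε⌋₊).card : ℝ) ≤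
          ((((Icc 3 ⌊X ^ ε⌋₊).filter fun p => p.Prime ∧ jacobiSym D p = -1).card : ℕ) : ℝ) +
          ((((PO ⌊X ^ ε⌋₊).filter fun p => p ∣ D.natAbs).card : ℕ) : ℝ) := by
        exact_mod_cast (Finset.card_le_card hsub).trans (Finset.card_union_le _ _)
      have a2 := card_dvd D.natAbs (Int.natAbs_ne_zero.2 (h1 D hD).1) ⌊X ^ ε⌋₊
      have a3 : Real.log D.natAbs / Real.log 2 ≤ Real.log X / Real.log 2 := by
        refine div_le_div_of_nonneg_right (Real.log_le_log ?_ (h1 D hD).2) hl2.le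
        exact_mod_cast Int.natAbs_pos.2 (h1 D hD).1
      have a4 := h3 D hD
      linarith
    refine h5.trans ?_
    obtain ⟨M, hM⟩ : ∃ M : ℝ, M = 1 + Real.log X := ⟨_, rfl⟩
    have hM1 : 1 ≤ M := by rw [hM]; linarith
    have b1 : Real.log X / Real.log 2 ≤ 2 * M := by
      rw [div_le_iff₀ hl2, hM]
      nlinarith
    rw [← hM]
    have b2 : M ^ B ≤ M ^ (B + 1) := pow_le_pow_right₀ hM1 (by omega)
    have b3 : M ≤ M ^ (B + 1) := by
      calc M = M ^ 1 := (pow_one M).symm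
        _ ≤ M ^ (B + 1) := pow_le_pow_right₀ hM1 (by omega)
    calc K * M ^ B + Real.log X / Real.log 2 ≤ |K| * M ^ (B + 1) + 2 * M ^ (B + 1) := by
          have c1 : K * M ^ B ≤ |K| * M ^ (B + 1) := by
            calc K * M ^ B ≤ |K| * M ^ B :=
                  mul_le_mul_of_nonneg_right (le_abs_self K) (by positivity)
              _ ≤ |K| * M ^ (B + 1) := mul_le_mul_of_nonneg_left b2 (abs_nonneg K)
          linarith
      _ = (|K| + 2) * M ^ (B + 1) := by ring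

/-- The form used for pairs `(D, f)`: if `D` is not exceptional and `f ≠ 0` has at most `K'
(1 + log X) ^ B'` prime divisors then there is an odd prime `p ≤ X ^ ε`, `p ∤ f`, `(D / p) = -1`:
outside a set of at most `C (log X) ^ k` integers `D` there is such a prime for every positive
`f ≤ X`. -/
theorem exists_inert (ε : ℝ) (hε : 0 < ε) : ∃ (C : ℝ) (k : ℕ), 0 ≤ C ∧ ∀ X : ℝ, 2 ≤ X →
    ∀ S : Finset ℤ, (∀ D ∈ S, D ≠ 0 ∧ (D.natAbs : ℝ) ≤ X) →
    (∀ D ∈ S, ∀ D' ∈ S, D ≠ D' → ¬ IsSquare (D * D')) →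
    ∃ E : Finset ℤ, E ⊆ S ∧ (E.card : ℝ) ≤ C * Real.log X ^ k ∧
      ∀ D ∈ S, D ∉ E → ∀ f : ℕ, 0 < f → (f : ℝ) ≤ X →
        ∃ p : ℕ, p.Prime ∧ 3 ≤ p ∧ (p : ℝ) ≤ X ^ ε ∧ ¬ p ∣ f ∧ jacobiSym D p = -1 := by
  classical
  obtain ⟨C, k, hC, h⟩ := exd ε 2 hε 1
  refine ⟨C, k, hC, fun X hX S h1 h2 => ?_⟩
  have hX0 : 0 < X := by linarith
  have hL : Real.log 2 ≤ Real.log X := Real.log_le_log (by norm_num) hX
  have hl2 : 0 < Real.log 2 := Real.log_pos (by norm_num)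
  have hl2' := Real.log_two_gt_d9
  obtain ⟨E, hE⟩ : ∃ E : Finset ℤ, E = S.filter (fun D =>
    ((((Icc 3 ⌊X ^ ε⌋₊).filter fun p => p.Prime ∧ jacobiSym D p = -1).card : ℕ) : ℝ) ≤
      2 * (1 + Real.log X) ^ 1) := ⟨_, rfl⟩
  have hES : E ⊆ S := by
    rw [hE]
    exact Finset.filter_subset _ _
  refine ⟨E, hES, ?_, ?_⟩
  · refine h X hX E (fun D hD => h1 D (hES hD)) (fun D hD D' hD' hne =>
      h2 D (hES hD) D' (hES hD') hne) ?_
    intro D hD
    rw [hE] at hD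
    exact (Finset.mem_filter.1 hD).2
  · intro D hD hDE f hf hfX
    have h3 : 2 * (1 + Real.log X) ^ 1 <
        ((((Icc 3 ⌊X ^ ε⌋₊).filter fun p => p.Prime ∧ jacobiSym D p = -1).card : ℕ) : ℝ) := by
      by_contra hc
      exact hDE (by rw [hE]; exact Finset.mem_filter.2 ⟨hD, not_lt.1 hc⟩)
    by_contra hno
    have hsub : ((Icc 3 ⌊X ^ ε⌋₊).filter fun p => p.Prime ∧ jacobiSym D p = -1) ⊆
        (PO ⌊X ^ ε⌋₊).filter fun p => p ∣ f := by
      intro p hp
      rw [Finset.mem_filter, Finset.mem_Icc] at hp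
      rw [Finset.mem_filter, PO, Finset.mem_filter, Finset.mem_Icc]
      refine ⟨⟨hp.1, hp.2.1⟩, ?_⟩
      by_contra hpf
      refine hno ⟨p, hp.2.1, hp.1.1, ?_, hpf, hp.2.2⟩
      have h5 : (p : ℝ) ≤ (⌊X ^ ε⌋₊ : ℝ) := by exact_mod_cast hp.1.2
      exact h5.trans (Nat.floor_le (Real.rpow_nonneg hX0.le _))
    have h4 : ((((Icc 3 ⌊X ^ ε⌋₊).filter fun p => p.Prime ∧ jacobiSym D p = -1).card : ℕ) : ℝ) ≤
        Real.log f / Real.log 2 := by
      refine le_trans ?_ (card_dvd f hf.ne' ⌊X ^ ε⌋₊)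
      exact_mod_cast Finset.card_le_card hsub
    have h5 : Real.log f / Real.log 2 ≤ Real.log X / Real.log 2 := by
      refine div_le_div_of_nonneg_right (Real.log_le_log ?_ hfX) hl2.le
      exact_mod_cast hf
    have h6 : Real.log X / Real.log 2 ≤ 2 * (1 + Real.log X) ^ 1 := by
      rw [div_le_iff₀ hl2, pow_one]
      nlinarith
    linarith

end Pool.Agent.H29.DF
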