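import Pool.Agent.H29.DF.EXD
import Pool.Agent.H24.Cls.Exist
import Pool.Agent.H89.DF.Defs

/-!
# Exceptional discriminants, part 5: forms which are anisotropic modulo a small prime
-/

set_option autoImplicit false

open NumberField Module

namespace Pool.Agent.H29.DF

open Pool.Agent.H31.CN (QF dsc val)
open Pool.Agent.H89.DF (Anis RQ)
open Pool.Agent.H24.Cls (Quad exists_quad)

/-- (a) a form whose discriminant is a non-residue modulo `p` is anisotropic modulo `p` -/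
theorem anis_of_jacobi (D : ℤ) (f p : ℕ) (hp : p.Prime) (h3 : 3 ≤ p) (hf : ¬ p ∣ f)
    (hj : jacobiSym D p = -1) (Q : QF) (hQ : -(dsc Q) = D * (f : ℤ) ^ 2) : Anis p Q := by
  have hfact : Fact p.Prime := ⟨hp⟩
  rw [← jacobiSym.legendreSym.to_jacobiSym, legendreSym.eq_neg_one_iff] at hj
  have hf0 : (f : ZMod p) ≠ 0 := by
    rw [Ne, ZMod.natCast_eq_zero_iff]
    exact hf
  have h2 : (2 : ZMod p) ≠ 0 := by
    intro h
    have h' : ((2 : ℕ) : ZMod p) = 0 := by exact_mod_cast h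
    rw [ZMod.natCast_eq_zero_iff] at h'
    have := Nat.le_of_dvd (by norm_num) h'
    omega
  obtain ⟨a, ha⟩ : ∃ a : ZMod p, a = (Q.1 : ZMod p) := ⟨_, rfl⟩
  obtain ⟨b, hb⟩ : ∃ b : ZMod p, b = (Q.2.1 : ZMod p) := ⟨_, rfl⟩
  obtain ⟨c, hc⟩ : ∃ c : ZMod p, c = (Q.2.2 : ZMod p) := ⟨_, rfl⟩
  have hd : b ^ 2 - 4 * a * c = (D : ZMod p) * (f : ZMod p) ^ 2 := by
    have h := congrArg (fun z : ℤ => (z : ZMod p)) hQ
    simp only [dsc] at h
    push_cast at h
    rw [ha, hb, hc, ← h]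
    ring
  have hns : ∀ r : ZMod p, b ^ 2 - 4 * a * c ≠ r ^ 2 := by
    intro r hr
    refine hj ⟨r / f, ?_⟩
    rw [hd] at hr
    field_simp
    exact hr
  intro w hw
  have hw0 : a * (w.1 : ZMod p) ^ 2 + b * (w.1 : ZMod p) * (w.2 : ZMod p) +
      c * (w.2 : ZMod p) ^ 2 = 0 := by
    have h := (ZMod.intCast_zmod_eq_zero_iff_dvd (val Q w) p).2 hw
    rw [val] at h
    push_cast at h
    rw [ha, hb, hc]
    exact h
  have hw2 : (w.2 : ZMod p) = 0 := by
    by_contra hne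
    refine hns ((2 * a * (w.1 : ZMod p) + b * (w.2 : ZMod p)) / (w.2 : ZMod p)) ?_
    field_simp
    linear_combination (-4 * a) * hw0
  have hw1 : (w.1 : ZMod p) = 0 := by
    by_contra hne
    rw [hw2] at hw0
    have ha0 : a = 0 := by
      have : a * (w.1 : ZMod p) ^ 2 = 0 := by linear_combination hw0
      rcases mul_eq_zero.1 this with h | h
      · exact h
      · exact absurd (pow_eq_zero_iff (two_ne_zero)|>.1 h) hne
    exact hns b (by rw [ha0]; ring)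
  exact ⟨(ZMod.intCast_zmod_eq_zero_iff_dvd _ p).1 hw1,
    (ZMod.intCast_zmod_eq_zero_iff_dvd _ p).1 hw2⟩

lemma disc_sub {R : Type*} [CommRing R] [IsDomain R] [CharZero R] (Q : Quad R) (w' : R)
    (t' n' : ℤ) (h : w' * w' = t' * w' - n') (hns : ∀ d : ℤ, t' ^ 2 - 4 * n' ≠ d ^ 2) :
    ∃ b : ℤ, t' ^ 2 - 4 * n' = b ^ 2 * Q.D := by
  obtain ⟨a, b, hab⟩ := Q.gen w'
  have hb : b ≠ 0 := by
    rintro rfl
    apply hns (2 * a - t')
    have h1 : w' = (a : R) := by rw [hab]; push_cast; ring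
    rw [h1] at h
    have h2 : ((a * a : ℤ) : R) = ((t' * a - n' : ℤ) : R) := by
      push_cast
      exact h
    have h3 : a * a = t' * a - n' := by exact_mod_cast h2
    linear_combination (-4 : ℤ) * h3
  have h1 : ((a ^ 2 - b ^ 2 * Q.n : ℤ) : R) + ((2 * a * b + b ^ 2 * Q.t : ℤ) : R) * Q.w =
      ((t' * a - n' : ℤ) : R) + ((t' * b : ℤ) : R) * Q.w := by
    rw [hab] at h
    push_cast
    linear_combination h - (b : R) ^ 2 * Q.eqn
  obtain ⟨h2, h3⟩ := Q.ext h1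
  have h4 : t' = 2 * a + b * Q.t := by
    refine mul_right_cancel₀ hb ?_
    linear_combination -h3
  refine ⟨b, ?_⟩
  rw [Quad.D]
  subst h4
  linear_combination (-4 : ℤ) * h2

lemma discr_dvd (K L : Type) [Field K] [NumberField K] [Field L] [NumberField L]
    (hK : finrank ℚ K = 2) (hL : finrank ℚ L = 2) (m : ℤ) (hm : discr K * discr L = m * m) :
    ∃ b : ℤ, discr L = b ^ 2 * discr K := by
  obtain ⟨Q, hQ⟩ := exists_quad K hK
  obtain ⟨P, hP⟩ := exists_quad L hL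
  have hD0 : (discr K : ℤ) ≠ 0 := NumberField.discr_ne_zero K
  have hD0' : ((discr K : ℤ) : K) ≠ 0 := by exact_mod_cast hD0
  obtain ⟨w, hw⟩ : ∃ w : K, w = ((Q.w : 𝓞 K) : K) := ⟨_, rfl⟩
  have e1 : w * w = (Q.t : K) * w - (Q.n : K) := by
    have h := congrArg (algebraMap (𝓞 K) K) Q.eqn
    rw [map_mul, map_sub, map_mul, map_intCast, map_intCast] at h
    rw [hw]
    exact h
  have e2 : (Q.t : K) ^ 2 - 4 * (Q.n : K) = ((discr K : ℤ) : K) := by
    rw [← hQ, Quad.D]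
    push_cast
    ring
  have e3 : (P.t : K) ^ 2 - 4 * (P.n : K) = ((discr L : ℤ) : K) := by
    rw [← hP, Quad.D]
    push_cast
    ring
  have e4 : ((discr K : ℤ) : K) * ((discr L : ℤ) : K) = (m : K) * (m : K) := by
    exact_mod_cast congrArg (fun z : ℤ => (z : K)) hm
  obtain ⟨v, hv⟩ : ∃ v : K, v = ((P.t : K) + (m : K) / ((discr K : ℤ) : K) *
    (2 * w - (Q.t : K))) / 2 := ⟨_, rfl⟩
  have e5 : v * v = (P.t : K) * v - (P.n : K) := by
    have h1 : (2 * v - (P.t : K)) ^ 2 = ((discr L : ℤ) : K) := by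
      have h2 : 2 * v - (P.t : K) = (m : K) / ((discr K : ℤ) : K) * (2 * w - (Q.t : K)) := by
        rw [hv]
        ring
      have h3 : (2 * w - (Q.t : K)) ^ 2 = ((discr K : ℤ) : K) := by
        linear_combination 4 * e1 + e2
      rw [h2, mul_pow, h3]
      field_simp
      linear_combination -e4
    have h4 : 4 * (v * v - ((P.t : K) * v - (P.n : K))) = 0 := by
      linear_combination h1 - e3
    have h5 := (mul_eq_zero.1 h4).resolve_left (by norm_num)
    exact sub_eq_zero.1 h5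
  have hint : IsIntegral ℤ v := by
    refine ⟨Polynomial.X ^ 2 - Polynomial.C P.t * Polynomial.X + Polynomial.C P.n, ?_, ?_⟩
    · monicity!
    · simp only [Polynomial.eval₂_add, Polynomial.eval₂_sub, Polynomial.eval₂_mul,
        Polynomial.eval₂_pow, Polynomial.eval₂_X, Polynomial.eval₂_C]
      rw [eq_intCast, eq_intCast]
      linear_combination e5
  obtain ⟨v', hv'⟩ : ∃ v' : 𝓞 K, algebraMap (𝓞 K) K v' = v := ⟨⟨v, hint⟩, rfl⟩
  have e6 : v' * v' = (P.t : 𝓞 K) * v' - (P.n : 𝓞 K) := by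
    apply FaithfulSMul.algebraMap_injective (𝓞 K) K
    rw [map_mul, map_sub, map_mul, map_intCast, map_intCast, hv']
    exact e5
  have hns : ∀ d : ℤ, P.t ^ 2 - 4 * P.n ≠ d ^ 2 := P.not_square
  obtain ⟨b, hb⟩ := disc_sub Q v' P.t P.n e6 hns
  refine ⟨b, ?_⟩
  rw [← hQ, ← hP, ← hb]
  rfl

/-- (b) different discriminants of quadratic fields are different modulo squares -/
theorem discr_eq (K L : Type) [Field K] [NumberField K] [Field L] [NumberField L]
    (hK : finrank ℚ K = 2) (hL : finrank ℚ L = 2) (h : IsSquare (discr K * discr L)) :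
    discr K = discr L := by
  obtain ⟨m, hm⟩ := h
  obtain ⟨b, hb⟩ := discr_dvd K L hK hL m hm
  obtain ⟨c, hc⟩ := discr_dvd L K hL hK m (by rw [mul_comm]; exact hm)
  have h0 : discr K ≠ 0 := NumberField.discr_ne_zero K
  have h1 : c ^ 2 * b ^ 2 = 1 := by
    refine mul_right_cancel₀ h0 ?_
    calc c ^ 2 * b ^ 2 * discr K = c ^ 2 * (b ^ 2 * discr K) := by ring
      _ = discr K := by rw [← hb, ← hc]
      _ = 1 * discr K := (one_mul _).symm
  have h2 : b ^ 2 = 1 := by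
    have h3 : (c * b) ^ 2 = 1 := by rw [mul_pow]; exact h1
    have h4 : IsUnit b := by
      refine IsUnit.of_mul_eq_one (c * (c * b)) ?_
      calc b * (c * (c * b)) = (c * b) ^ 2 := by ring
        _ = 1 := h3
    rcases Int.isUnit_iff.1 h4 with h | h <;> rw [h] <;> norm_num
  rw [hb, h2, one_mul]

/-- (c) outside a set `E` of `O((log X) ^ k)` discriminants `D` of real quadratic fields there is for
every conductor `f ≤ X` a prime `p ≤ X ^ ε` such that the forms of discriminant `D f ^ 2` are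
anisotropic modulo `p`. -/
theorem exists_anis (ε : ℝ) (hε : 0 < ε) : ∃ (C : ℝ) (k : ℕ), 0 ≤ C ∧ ∀ X : ℝ, 2 ≤ X →
    ∀ (K : ℕ → Type) [∀ D, Field (K D)] [∀ D, NumberField (K D)] (σ σ' : ∀ D, K D →+* ℝ)
      (S : Finset ℕ), (∀ D ∈ S, RQ (K D) D (σ D) (σ' D) ∧ (D : ℝ) ≤ X) →
    ∃ E : Finset ℕ, E ⊆ S ∧ (E.card : ℝ) ≤ C * Real.log X ^ k ∧
      ∀ D ∈ S, D ∉ E → ∀ f : ℕ, 0 < f → (f : ℝ) ≤ X →
        ∃ p : ℕ, p.Prime ∧ 3 ≤ p ∧ (p : ℝ) ≤ X ^ ε ∧ ¬ p ∣ f ∧
          ∀ Q : QF, -(dsc Q) = (D : ℤ) * (f : ℤ) ^ 2 → Anis p Q := by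
  classical
  obtain ⟨C, k, hC, h⟩ := exists_inert ε hε
  refine ⟨C, k, hC, fun X hX K _ _ σ σ' S hS => ?_⟩
  have hinj : Function.Injective (fun D : ℕ => (D : ℤ)) := fun a b h => Int.ofNat.inj h
  obtain ⟨E, hE1, hE2, hE3⟩ := h X hX (S.image fun D : ℕ => (D : ℤ)) (by
      intro D hD
      obtain ⟨d, hd, rfl⟩ := Finset.mem_image.1 hD
      obtain ⟨h1, h2⟩ := hS d hd
      refine ⟨by exact_mod_cast h1.pos.ne', ?_⟩
      rw [Int.natAbs_natCast]
      exact h2) (by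
      intro D hD D' hD' hne hsq
      obtain ⟨d, hd, rfl⟩ := Finset.mem_image.1 hD
      obtain ⟨d', hd', rfl⟩ := Finset.mem_image.1 hD'
      apply hne
      have h1 := (hS d hd).1
      have h2 := (hS d' hd').1
      have h3 := discr_eq (K d) (K d') h1.rk h2.rk (by rw [h1.dis, h2.dis]; exact hsq)
      rw [h1.dis, h2.dis] at h3
      exact h3)
  refine ⟨S.filter (fun D : ℕ => (D : ℤ) ∈ E), Finset.filter_subset _ _, ?_, ?_⟩
  · refine le_trans ?_ hE2
    have h1 : ((S.filter (fun D : ℕ => (D : ℤ) ∈ E)).image fun D : ℕ => (D : ℤ)) ⊆ E := by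
      intro D hD
      obtain ⟨d, hd, rfl⟩ := Finset.mem_image.1 hD
      exact (Finset.mem_filter.1 hd).2
    have h2 := Finset.card_le_card h1
    rw [Finset.card_image_of_injective _ hinj] at h2
    exact_mod_cast h2
  · intro D hD hDE f hf hfX
    have h1 : (D : ℤ) ∉ E := fun h => hDE (Finset.mem_filter.2 ⟨hD, h⟩)
    obtain ⟨p, p1, p2, p3, p4, p5⟩ := hE3 (D : ℤ) (Finset.mem_image_of_mem _ hD) h1 f hf hfX
    exact ⟨p, p1, p2, p3, p4, fun Q hQ => anis_of_jacobi D f p p1 p2 p4 p5 Q hQ⟩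

end Pool.Agent.H29.DF
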