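import Pool.Agent.H95.DR.Targets
import Pool.Agent.H29.DF.EXE

/-!
# Dihedral `L`-functions of real quadratic fields: the exceptional discriminants, targets

For a discriminant `D` for which no small prime is inert the twisted second moment is bounded by the
convexity bound for the `L`-functions (EX1) and the mean square of the Dirichlet polynomial over the
characters of one conductor (EX2).
-/

set_option autoImplicit false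

open MeasureTheory Set Filter NumberField
open scoped Real nonZeroDivisors Matrix MatrixGroups

namespace Pool.Agent.H29.DF

open Pool.Agent.H31.CN Pool.Agent.H89.FM Pool.Agent.H61.FM Pool.Agent.H89.FC Pool.Agent.H95.FC
open Pool.Agent.H89.DF Pool.Agent.H95.DR

/-! ### The counting function of a line -/

/-- `v` is a vector on the line of `V`, and the absolute value of `Q v` is squarefree and at most
`N` -/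
structure Lx (f N : ℕ) (Q : QF) (V v : ℤ × ℤ) : Prop where
  ne : v ≠ 0
  lin : (f : ℤ) ∣ det V v
  sq : (val Q v).natAbs ∈ Sq N

section

variable {K : Type} [Field K] [NumberField K]

open Classical in
/-- the weighted sum over the vectors on the line of `V` in a short window -/
noncomputable def Hx (σ σ' : K →+* ℝ) (κ f N : ℕ) (g : ℕ → ℂ) (B : ℝ) (α β : 𝓞 K) (Q : QF)
    (V : ℤ × ℤ) (τ : ℝ) : ℂ :=
  ∑' v : ℤ × ℤ, if Lx f N Q V v ∧ 0 ≤ τ + lg σ σ' (lv K α β v) ∧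
      τ + lg σ σ' (lv K α β v) < 1 / B then
    g (val Q v).natAbs *
      ((Real.sign (σ (lv K α β v : K) * σ' (lv K α β v : K)) : ℝ) : ℂ) ^ κ else 0

end

/-- (XSP) there are few vectors on a line in a short window. -/
def T_XSP : Prop :=
  ∀ (K : Type) [Field K] [NumberField K] (D f : ℕ) (σ σ' : K →+* ℝ), RQ K D σ σ' → 1 ≤ f →
    ∀ (R : DD K D f σ σ') (c : ClassGroup (𝓞 K)) (N : ℕ) (τ : ℝ), ∀ V ∈ R.T c,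
    {v : ℤ × ℤ | Lx f N (R.Q c) V v ∧ 0 ≤ τ + lg σ σ' (lv K (R.α c) (R.β c) v) ∧
      τ + lg σ σ' (lv K (R.α c) (R.β c) v) < 1}.Finite ∧
    ({v : ℤ × ℤ | Lx f N (R.Q c) V v ∧ 0 ≤ τ + lg σ σ' (lv K (R.α c) (R.β c) v) ∧
      τ + lg σ σ' (lv K (R.α c) (R.β c) v) < 1}.ncard : ℝ) ≤ 2 + 12 * N / (f * Real.sqrt D)

/-- (XHB) the counting function is measurable and bounded. -/
def T_XHB : Prop :=
  ∀ (K : Type) [Field K] [NumberField K] (D f : ℕ) (σ σ' : K →+* ℝ), RQ K D σ σ' → 1 ≤ f →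
    ∀ (R : DD K D f σ σ') (c : ClassGroup (𝓞 K)) (κ N : ℕ) (g : ℕ → ℂ) (B : ℝ), 1 ≤ B →
    (∀ n, ‖g n‖ ≤ 1) → ∀ V ∈ R.T c,
    Measurable (Hx σ σ' κ f N g B (R.α c) (R.β c) (R.Q c) V) ∧
      ∀ τ, ‖Hx σ σ' κ f N g B (R.α c) (R.β c) (R.Q c) V τ‖ ≤ 2 + 12 * N / (f * Real.sqrt D)

open Classical in
/-- (XHI) unfolding the counting function. -/
def T_XHI : Prop :=
  ∀ (K : Type) [Field K] [NumberField K] (D f : ℕ) (σ σ' : K →+* ℝ), RQ K D σ σ' → 1 ≤ f →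
    ∀ (R : DD K D f σ σ') (c : ClassGroup (𝓞 K)) (κ N : ℕ) (ν : ℝ) (g : ℕ → ℂ) (B : ℝ), 1 ≤ B →
    (∀ n, ‖g n‖ ≤ 1) → Complex.exp (((ν * R.P : ℝ) : ℂ) * Complex.I) = 1 → ∀ V ∈ R.T c,
    {v : ℤ × ℤ | Lx f N (R.Q c) V v ∧ Wd σ σ' (R.α c) (R.β c) R.η 0 v}.Finite ∧
    ∫ τ in (0 : ℝ)..R.P, Hx σ σ' κ f N g B (R.α c) (R.β c) (R.Q c) V τ *
        Complex.exp (-(((ν * τ : ℝ) : ℂ) * Complex.I)) =
      (∑' v : ℤ × ℤ, if Lx f N (R.Q c) V v ∧ Wd σ σ' (R.α c) (R.β c) R.η 0 v then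
        g (val (R.Q c) v).natAbs * tyr σ σ' κ ν (lv K (R.α c) (R.β c) v) else 0) *
        ∫ τ in (0 : ℝ)..(1 / B), Complex.exp (-(((ν * τ : ℝ) : ℂ) * Complex.I)) ∧
    ∫ τ in (0 : ℝ)..R.P, ‖Hx σ σ' κ f N g B (R.α c) (R.β c) (R.Q c) V τ‖ ≤
      1 / B * ({v : ℤ × ℤ | Lx f N (R.Q c) V v ∧
        Wd σ σ' (R.α c) (R.β c) R.η 0 v}.ncard : ℝ)

open Classical in
/-- (XHS) the sum over all lines is a sum over ideals. -/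
def T_XHS : Prop :=
  ∀ (K : Type) [Field K] [NumberField K] (D f : ℕ) (σ σ' : K →+* ℝ), RQ K D σ σ' → 1 ≤ f →
    ∀ (R : DD K D f σ σ') (κ N : ℕ) (ν : ℝ) (g : ℕ → ℂ) (ψ : Ideal (𝓞 K) → ℂ),
    RCr K σ σ' f κ ν ψ →
    ∑ j ∈ R.J, R.ρ κ ν ψ j.1 j.2 *
      (∑' v : ℤ × ℤ, if Lx f N (R.Q j.1) j.2 v ∧ Wd σ σ' (R.α j.1) (R.β j.1) R.η 0 v then
        g (val (R.Q j.1) v).natAbs * tyr σ σ' κ ν (lv K (R.α j.1) (R.β j.1) v) else 0) =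
      (R.n : ℂ) * ∑ n ∈ Sq N, g n * lc ψ n

/-- (XHC) the number of the vectors of all lines. -/
def T_XHC : Prop :=
  ∀ (K : Type) [Field K] [NumberField K] (D f : ℕ) (σ σ' : K →+* ℝ), RQ K D σ σ' → 1 ≤ f →
    ∀ (R : DD K D f σ σ') (N : ℕ),
    ∑ j ∈ R.J, {v : ℤ × ℤ | Lx f N (R.Q j.1) j.2 v ∧
      Wd σ σ' (R.α j.1) (R.β j.1) R.η 0 v}.ncard ≤ R.n * ∑ n ∈ Sq N, (Nn K n).card

/-! ### The mean square, convexity, the final bound -/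

/-- (EX2) the mean square of the Dirichlet polynomials over the characters of one conductor. -/
def T_EX2 : Prop :=
  ∀ ε : ℝ, 0 < ε → ∃ C : ℝ, 0 < C ∧ ∀ (K : Type) [Field K] [NumberField K] (σ σ' : K →+* ℝ)
    (D f κ N : ℕ) (B : ℝ) (g : ℕ → ℂ) (Ψ : Finset (Ideal (𝓞 K) → ℂ))
    (ν : (Ideal (𝓞 K) → ℂ) → ℝ), RQ K D σ σ' → 1 ≤ B → 1 ≤ N → (∀ n, ‖g n‖ ≤ 1) →
    (∀ ψ ∈ Ψ, RCr K σ σ' f κ (ν ψ) ψ ∧ |ν ψ| ≤ B) →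
    ∑ ψ ∈ Ψ, ‖∑ n ∈ Sq N, g n * lc ψ n‖ ^ 2 ≤
      C * B * (((D : ℝ) * (f : ℝ) ^ 2) ^ (1 / 2 : ℝ) + N) *
        ((D : ℝ) * (f : ℝ) ^ 2) ^ ε * (N : ℝ) ^ (1 + ε)

/-- (KSM) the sum over the ideals of the bound for the kernel. -/
def T_KSM : Prop :=
  ∀ ε : ℝ, 0 < ε → ∀ c : ℝ, 0 < c → ∃ (C : ℝ) (k : ℕ), 0 < C ∧ ∀ (K : Type) [Field K]
    [NumberField K] (Y M σ : ℝ), Module.finrank ℚ K = 2 → 1 ≤ Y → 1 ≤ M → |σ - 1 / 2| ≤ 1 / 8 →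
    Summable (fun J : (Ideal (𝓞 K))⁰ => (((nm J : ℝ) / Y) ^ (-σ) + ((nm J : ℝ) / Y) ^ (σ - 1)) *
      Real.exp (-(c * ((nm J : ℝ) / Y) / M))) ∧
    ∑' J : (Ideal (𝓞 K))⁰, (((nm J : ℝ) / Y) ^ (-σ) + ((nm J : ℝ) / Y) ^ (σ - 1)) *
      Real.exp (-(c * ((nm J : ℝ) / Y) / M)) ≤ C * M ^ k * Y ^ (1 + ε)

/-- (EX1) the convexity bound. -/
def T_EX1 : Prop :=
  ∀ ε : ℝ, 0 < ε → ∃ (C : ℝ) (k : ℕ), 0 < C ∧ ∀ (K : Type) [Field K] [NumberField K]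
    (σ σ' : K →+* ℝ) (D f κ : ℕ) (ν : ℝ) (ψ : Ideal (𝓞 K) → ℂ) (F : ℂ → ℂ) (s : ℂ) (κ₀ : ℝ),
    RQ K D σ σ' → RCr K σ σ' f κ ν ψ → IsL ψ F → |s.re - 1 / 2| ≤ κ₀ → κ₀ ≤ 1 / 8 →
    ‖F s‖ ^ 2 ≤ C * (1 + |s.im| + |ν|) ^ k * ((D : ℝ) * (f : ℝ) ^ 2) ^ (1 / 2 + κ₀ + ε)

/-- (EXF) the twisted second moment over exceptional discriminants. -/
def T_EXF : Prop :=
  ∀ ε : ℝ, 0 < ε → ∃ κ₀ : ℝ, 0 < κ₀ ∧ κ₀ ≤ 1 / 8 ∧ ∃ δ : ℝ, 0 < δ ∧ ∃ (C : ℝ) (k : ℕ), 0 < C ∧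
    ∀ (s : ℂ) (X V : ℝ) (N : ℕ) (α : ℕ → ℂ) (K : ℕ → Type) [∀ D, Field (K D)]
      [∀ D, NumberField (K D)] (σ σ' : ∀ D, K D →+* ℝ) (S : Finset (IXr K)) (f κ : IXr K → ℕ)
      (ν : IXr K → ℝ) (F : IXr K → ℂ → ℂ) (E : Finset ℕ),
      |s.re - 1 / 2| ≤ κ₀ → 1 ≤ X → 1 ≤ V → 1 ≤ N → (N : ℝ) ≤ X ^ ((1 + δ) / 2) →
      (∀ n, ‖α n‖ ≤ 1) → Famr K σ σ' S f κ ν F 0 X V → (∀ x ∈ S, x.1 ∈ E) →
      ∑ x ∈ S, ‖∑ n ∈ Sq N, α n * lc x.2 n‖ ^ 2 * ‖F x s‖ ^ 2 ≤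
        C * (1 + |s.im| + V) ^ k * E.card * X ^ (3 / 2 + ε) * N

end Pool.Agent.H29.DF
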